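import Pool.Agent.Lib.MP_a01f70_lc.B2
import Pool.Agent.Lib.MP_a01f70_lc.B1Chk

/-!
All exponents `1 + 2 ^ A + 2 ^ B`.
-/

set_option linter.unusedSectionVars false

namespace Pool.Agent.Lib.MP_a01f70_lc
open Finset

variable {n : ℕ} [NeZero n]

lemma scale_zero {m g : ℕ} (hn : n = m * g) {X : ℤ} (h : (m : ℤ) ∣ X) :
    (g : ZMod n) * X = 0 := by
  obtain ⟨c, rfl⟩ := h
  have : ((m * g : ℕ) : ZMod n) = 0 := by rw [← hn, ZMod.natCast_self]
  push_cast at this ⊢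
  linear_combination c * this

lemma wit_of_tri1 {m g : ℕ} (hn : n = m * g) (A B : ℕ)
    (h : ∃ t S U : ℤ, (m : ℤ) ∣ S - t * A ∧ (m : ℤ) ∣ U - t * B ∧ InI tri1 S U m) :
    Wit n (cub n (g * A : ℕ) (g * B : ℕ)) := by
  obtain ⟨t, S, U, h1, h2, h3⟩ := h
  rw [inI_tri1] at h3
  obtain ⟨S, rfl⟩ := Int.eq_ofNat_of_zero_le (a := S) (by omega)
  obtain ⟨U, rfl⟩ := Int.eq_ofNat_of_zero_le (a := U) (by omega)
  have e1 := scale_zero hn h1
  have e2 := scale_zero hn h2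
  push_cast at e1 e2
  have c1 : m ≤ 4 * S := by omega
  have c2 : 4 * S + m ≤ 4 * U := by omega
  have c3 : 4 * U ≤ 3 * m := by omega
  refine wit_tri1 t _ _ (g * S) (g * U) (by push_cast; linear_combination e1)
    (by push_cast; linear_combination e2) ?_ ?_ ?_ <;> rw [hn]
  · nlinarith [Nat.mul_le_mul_left g c1]
  · nlinarith [Nat.mul_le_mul_left g c2]
  · nlinarith [Nat.mul_le_mul_left g c3]

lemma res_of_rel1 (ho : Odd n) {m g : ℕ} (hn : n = m * g) (A B : ℕ) {x y : ℤ} (hv : (x, y) ∈ exc1)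
    (h : (m : ℤ) ∣ x * A + y * B) : Res n (cub n (g * A : ℕ) (g * B : ℕ)) := by
  have e := scale_zero hn h
  refine res_of_exc1 (res2 ho) _ _ hv ?_
  push_cast at e ⊢
  linear_combination e

lemma multB_spec {m A B m' a b : ℕ} [NeZero m] (h : multB m A B m' a b = true) :
    m' = m ∧ ∃ s : ZMod m, s * A = a ∧ s * B = b := by
  simp only [multB, Bool.and_eq_true, Nat.beq_eq] at h
  obtain ⟨s, _, hs⟩ := anyLt_spec h.2
  simp only [Bool.and_eq_true, Nat.beq_eq] at hs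
  exact ⟨h.1, s, by exact_mod_cast cast_of_mod hs.1, by exact_mod_cast cast_of_mod hs.2⟩

theorem res_of_pairOK (ho : Odd n) {m g : ℕ} (hn : n = m * g) (A B : ℕ)
    (hg : Nat.gcd (Nat.gcd A B) m = 1) (h : pairOK m A B = true) :
    Res n (cub n (g * A : ℕ) (g * B : ℕ)) := by
  have : NeZero m := ⟨fun h => NeZero.ne n (by rw [hn, h, zero_mul])⟩
  simp only [pairOK, Bool.or_eq_true, Bool.and_eq_true, List.any_eq_true, hg,
    decide_eq_true_eq] at h
  rcases h with (((h | h) | ⟨v, hv, h⟩) | ⟨e, he, h⟩) | ⟨⟨e, he, h⟩, h'⟩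
  · exact absurd h (by decide)
  · obtain ⟨t, _, ht⟩ := anyLt_spec h
    simp only [tri1B, Bool.and_eq_true, Nat.ble_eq] at ht
    refine Or.inl (wit_of_tri1 hn A B ⟨t, (t * A % m : ℕ), (t * B % m : ℕ), ?_, ?_, ?_⟩)
    · exact_mod_cast Nat.modEq_iff_dvd.mp (Nat.mod_modEq (t * A) m).symm
    · exact_mod_cast Nat.modEq_iff_dvd.mp (Nat.mod_modEq (t * B) m).symm
    · rw [inI_tri1]
      omega
  · exact res_of_rel1 ho hn A B (x := v.1) (y := v.2) hv (Int.dvd_of_emod_eq_zero h)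
  · obtain ⟨h1, s, h2, h3⟩ := multB_spec h
    have h4 := List.all_eq_true.mp tabOne_ok e he
    simp only [Bool.and_eq_true, Nat.ble_eq, h1] at h4
    exact Or.inl (wit_one hn A B _ _ s h2 h3 h4.1.1 h4.1.2 h4.2)
  · have hgo : Odd g := (Nat.odd_mul.mp (hn ▸ ho)).2
    by_cases hg1 : g = 1
    · subst hg1
      rw [mul_one] at hn
      subst hn
      rw [one_mul, one_mul, cub_natCast]
      rcases h' with ⟨w, _, h'⟩ | h'
      · exact Or.inl (wit_of_witOK h'.2)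
      · exact res_of_famOK h'
    · obtain ⟨h1, s, h2, h3⟩ := multB_spec h
      have h4 := List.all_eq_true.mp tabCol_ok e he
      obtain ⟨m', a, b, J₀, G₀, J₁, G₁, J₂, K₀, H₀, K₁⟩ := e
      simp only [Bool.and_eq_true, Nat.ble_eq] at h1 h2 h3 h4
      subst h1
      exact Or.inl (wit_block hn hgo (by obtain ⟨c, hc⟩ := hgo; omega) A B _ _ s h2 h3 h4.1.1
        h4.1.2 h4.2)

theorem res1_large (ho : Odd n) {m g : ℕ} (hn : n = m * g) (A B : ℕ)
    (hg : Nat.gcd (Nat.gcd A B) m = 1) (hm : 83 ≤ m) : Res n (cub n (g * A : ℕ) (g * B : ℕ)) := by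
  have hm0 : (0 : ℤ) < m := by omega
  have hmo : Odd m := (Nat.odd_mul.mp (hn ▸ ho)).1
  obtain ⟨x, y, z, hx, hy0, hy, hv, hp⟩ := thue (n := m) (by omega) A B (Nat.sqrt m) (Nat.sqrt m)
    (Nat.lt_succ_sqrt m)
  have hab : ∃ l k' k : ℤ, l * A + k' * B + k * m = 1 := by
    have e1 := Nat.gcd_eq_gcd_ab A B
    have e2 := Nat.gcd_eq_gcd_ab (Nat.gcd A B) m
    rw [hg, Nat.cast_one] at e2
    exact ⟨Nat.gcdA A B * Nat.gcdA (Nat.gcd A B) m, Nat.gcdB A B * Nat.gcdA (Nat.gcd A B) m,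
      Nat.gcdB (Nat.gcd A B) m, by linear_combination -e2 - Nat.gcdA (Nat.gcd A B) m * e1⟩
  have b0 : (Nat.sqrt m : ℤ) * Nat.sqrt m ≤ m := by exact_mod_cast Nat.sqrt_le m
  have b1 : x ^ 2 ≤ m := by
    rw [← sq_abs, sq]
    exact (mul_self_le_mul_self (abs_nonneg x) hx).trans b0
  have b2 : y ^ 2 ≤ m := by
    rw [sq]
    exact (mul_self_le_mul_self hy0 hy).trans b0
  by_cases hbig : 12 ≤ |x| ∨ 12 ≤ y
  · exact Or.inl (wit_of_tri1 hn A B (hit_large1 (by omega) hab hv hp hy0 b1 b2 hbig))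
  rw [not_or, not_le, not_le, abs_lt] at hbig
  have h1 := allLt_spec (allLt_spec large1 y.toNat (by omega)) (x + 11).toNat (by omega)
  rw [Int.toNat_of_nonneg hy0, Int.toNat_of_nonneg (by omega), add_sub_cancel_right] at h1
  have c1 : max 83 (max (x ^ 2) (y ^ 2)) ≤ (m : ℤ) := max_le (by omega) (max_le b1 b2)
  have c2 : (0 : ℤ) < max 83 (max (x ^ 2) (y ^ 2)) := lt_max_of_lt_left (by norm_num)
  generalize max 83 (max (x ^ 2) (y ^ 2)) = n₀ at h1 c1 c2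
  simp only [dir1, Bool.or_eq_true, Bool.and_eq_true, decide_eq_true_eq] at h1
  rcases h1 with (h1 | h1) | h1
  · exact (not_both_even (by exact_mod_cast hmo) hv hp h1.1 h1.2).elim
  · exact res_of_rel1 ho hn A B h1 ⟨z, hv⟩
  · exact Or.inl (wit_of_tri1 hn A B (hit_of_cert3 hm0 hab hv hp c2 (by norm_num) c1 h1))

theorem res1 (ho : Odd n) (A B : ZMod n) : Res n (cub n A B) := by
  wlog hAB : A.val ≤ B.val generalizing A B
  · rw [cub_comm]
    exact this B A (by omega)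
  have g0 : 0 < Nat.gcd (Nat.gcd A.val B.val) n := Nat.gcd_pos_of_pos_right _ (NeZero.pos n)
  obtain ⟨a, ha⟩ := (Nat.gcd_dvd_left (Nat.gcd A.val B.val) n).trans (Nat.gcd_dvd_left _ _)
  obtain ⟨b, hb⟩ := (Nat.gcd_dvd_left (Nat.gcd A.val B.val) n).trans (Nat.gcd_dvd_right _ _)
  obtain ⟨m, hm⟩ := Nat.gcd_dvd_right (Nat.gcd A.val B.val) n
  have hB := ZMod.val_lt B
  rw [← ZMod.natCast_zmod_val A, ← ZMod.natCast_zmod_val B]
  obtain ⟨g, hg⟩ : ∃ g, Nat.gcd (Nat.gcd A.val B.val) n = g := ⟨_, rfl⟩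
  rw [hg] at g0 ha hb hm
  have h1 : Nat.gcd (Nat.gcd a b) m = 1 := by
    rw [ha, hb, Nat.gcd_mul_left] at hg
    nth_rewrite 1 [hm] at hg
    rw [Nat.gcd_mul_left] at hg
    exact Nat.eq_of_mul_eq_mul_left g0 (by rw [hg, mul_one])
  have h2 : b < m := Nat.lt_of_mul_lt_mul_left (a := g) (by rw [← hb, ← hm]; exact hB)
  have h3 : a ≤ b := Nat.le_of_mul_le_mul_left (by rw [← ha, ← hb]; exact hAB) g0
  rw [ha, hb]
  rw [mul_comm] at hm
  rcases Nat.lt_or_ge m 83 with h | h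
  · obtain ⟨i, hi⟩ := (Nat.odd_mul.mp (hm ▸ ho)).1
    have h4 := allLt_spec small1 i (by omega)
    rw [← hi] at h4
    exact res_of_pairOK ho hm a b h1 (allLt_spec (allLt_spec h4 b h2) a (by omega))
  · exact res1_large ho hm a b h1 h

end Pool.Agent.Lib.MP_a01f70_lc
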