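import Pool.Agent.Lib.MP_a01f70_lc.Res
import Pool.Agent.Lib.MP_a01f70_lc.B2Data

/-!
The exponents `1 + 2 ^ k + 2 ^ (3 * k)`.
-/

set_option linter.unusedSectionVars false

namespace Pool.Agent.Lib.MP_a01f70_lc
open Finset

theorem boxes_ok : boxes.all Box.ok = true := by decide +kernel

/-- the short relations -/
def rel2B (n k : ℕ) : Bool :=
  Nat.beq (k % n) 0 || Nat.beq (3 * k % n) 0 || Nat.beq k 1 || Nat.beq ((k + 1) % n) 0 ||
    Nat.beq (2 * k % n) 1 || Nat.beq ((2 * k + 1) % n) 0 ||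
    (Nat.beq (7 * k % n) 0 && !Nat.beq n 7)

/-- membership in a box -/
def boxB (o : Option Box) (n T S : ℕ) : Bool :=
  match o with
  | none => false
  | some b => Nat.ble (b.p₁ * n) (b.N * T) && Nat.ble (b.N * T) (b.p₂ * n) &&
      Nat.ble (b.q₁ * n) (b.N * S) && Nat.ble (b.N * S) (b.q₂ * n)

/-- membership in the second triangle -/
def triB (n T S : ℕ) : Bool :=
  Nat.ble n (2 * T + 2 * S) && Nat.ble (2 * T + n) (8 * S) && Nat.ble (4 * S) n

/-- check of one entry of a certificate -/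
noncomputable def entryOK (n k T i : ℕ) : Bool :=
  cond (Nat.beq i 0) (triB n T (T * k % n))
    (cond (Nat.beq i 1) (witOK n (1 + 2 ^ k + 2 ^ (3 * k)) (wl2.getD T 0))
      (cond (Nat.beq i 2) (rel2B n k)
        (cond (Nat.beq i 3) (famOK n (1 + 2 ^ k + 2 ^ (3 * k)))
          (boxB boxes[i - 4]? n T (T * k % n)))))

/-- check of the certificate for one `n` -/
noncomputable def rowOK (n c : ℕ) : Bool :=
  allLt (fun k => entryOK n k (c >>> (18 * k) % 1024) (c >>> (18 * k + 10) % 256)) n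

theorem small2 : allLt (fun i => rowOK (2 * i + 1) (certs.getD i 0)) 230 = true := by
  decide +kernel

lemma cond_or {c a b : Bool} (h : cond c a b = true) : a = true ∨ b = true := by
  cases c
  · exact Or.inr h
  · exact Or.inl h

variable {n : ℕ} [NeZero n]

lemma cast_of_mod {a b : ℕ} (h : a % n = b) : (a : ZMod n) = b := by rw [← h, ZMod.natCast_mod]

theorem res_of_entryOK (hn : Odd n) {k T i : ℕ} (h : entryOK n k T i = true) :
    Res n (cub n k (3 * k)) := by
  have hS : ((T * k % n : ℕ) : ZMod n) = T * k := by rw [ZMod.natCast_mod, Nat.cast_mul]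
  have hc : cub n k (3 * k) = ((1 + 2 ^ k + 2 ^ (3 * k) : ℕ) : ZMod (2 ^ n - 1)) := by
    rw [← cub_natCast, Nat.cast_mul, Nat.cast_ofNat]
  rcases cond_or h with h | h
  · simp only [triB, Bool.and_eq_true, Nat.ble_eq] at h
    exact Or.inl (wit_tri2 _ T _ hS h.1.1 h.1.2 h.2)
  rcases cond_or h with h | h
  · exact Or.inl (hc ▸ wit_of_witOK h)
  rcases cond_or h with h | h
  · simp only [rel2B, Bool.or_eq_true, Bool.and_eq_true, Nat.beq_eq, Bool.not_eq_true',
      ← Bool.not_eq_true] at h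
    refine res_of_rel2 hn _ ?_
    rcases h with (((((h | h) | h) | h) | h) | h) | h
    · exact Or.inl (by exact_mod_cast cast_of_mod h)
    · exact Or.inr (Or.inl (by exact_mod_cast cast_of_mod h))
    · exact Or.inr (Or.inr (Or.inl (by rw [h, Nat.cast_one])))
    · exact Or.inr (Or.inr (Or.inr (Or.inl (by exact_mod_cast cast_of_mod h))))
    · exact Or.inr (Or.inr (Or.inr (Or.inr (Or.inl (by exact_mod_cast cast_of_mod h)))))
    · exact Or.inr (Or.inr (Or.inr (Or.inr (Or.inr (Or.inl (by exact_mod_cast cast_of_mod h))))))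
    · exact Or.inr (Or.inr (Or.inr (Or.inr (Or.inr (Or.inr
        ⟨by exact_mod_cast cast_of_mod h.1, h.2⟩)))))
  rcases cond_or h with h | h
  · exact hc ▸ res_of_famOK h
  · generalize ho : boxes[i - 4]? = o at h
    cases o with
    | none => exact absurd h Bool.false_ne_true
    | some b =>
      simp only [boxB, Bool.and_eq_true, Nat.ble_eq] at h
      exact Or.inl (wit_box b (List.all_eq_true.mp boxes_ok b (List.mem_of_getElem? ho)) _ T _ hS
        h.1.1.1 h.1.1.2 h.1.2 h.2)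

theorem res2_small (hn : Odd n) (hle : n < 461) (k : ZMod n) : Res n (cub n k (3 * k)) := by
  obtain ⟨i, hi⟩ := id hn
  have h1 := allLt_spec small2 i (by omega)
  rw [← hi] at h1
  have h2 := allLt_spec h1 k.val (ZMod.val_lt k)
  have := res_of_entryOK hn h2
  rwa [ZMod.natCast_zmod_val] at this

/-- a box as an intersection of half planes -/
def boxH (b : Box) : List (ℤ × ℤ × ℤ) :=
  [(b.N, 0, b.p₁), (-b.N, 0, -b.p₂), (0, b.N, b.q₁), (0, -b.N, -b.q₂)]

/-- certificate for a box -/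
def boxCert (x y n₀ : ℤ) (b : Box) : Bool :=
  if 0 ≤ x then certOK (boxH b) x y n₀ b.N (b.p₁ * n₀) (b.q₁ * n₀ + x * b.N) (b.p₂ * n₀ - y * b.N)
    (b.q₂ * n₀)
  else certOK (boxH b) x y n₀ b.N (b.p₂ * n₀ - y * b.N) (b.q₁ * n₀) (b.p₁ * n₀)
    (b.q₂ * n₀ + x * b.N)

/-- certificate for the second triangle -/
def triCert (x y n₀ U W S₀ : ℤ) : Bool :=
  cert3 tri2 x y n₀ 20 (U - (U + W) / 5) ((U + W) / 5) (U - S₀) S₀ (4 * S₀ - W) S₀

/-- the short relations for the second triangle and the boxes -/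
def exc2 : List (ℤ × ℤ) :=
  [(1, 0), (-1, 0), (0, 1), (0, 3), (0, 7), (1, 1), (-1, 1), (1, 2), (-1, 2)]

/-- check of one direction -/
def dir2 (x y n₀ : ℤ) : Bool :=
  (decide (x % 2 = 0) && decide (y % 2 = 0)) || decide ((x, y) ∈ exc2) ||
    triCert x y n₀ (10 * n₀ + 20 * max 0 (x - y)) (10 * n₀ + 20 * max 0 (4 * x + y))
      (5 * n₀ - 20 * max 0 (-x)) ||
    boxes.any (boxCert x y n₀)

theorem large2 : allLt (fun y => allLt (fun x => dir2 ((x : ℤ) - 11) y
    (max 461 (max (5 * ((x : ℤ) - 11) ^ 2) (((y : ℤ) ^ 2 + 4) / 5)))) 23) 60 = true := by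
  decide +kernel

lemma not_both_even {n a b x y z : ℤ} (hn : Odd n) (hv : x * a + y * b = n * z)
    (hg : ∃ l m k, l * x + m * y + k * z = 1) (hx : x % 2 = 0) (hy : y % 2 = 0) : False := by
  obtain ⟨l, m, k, h⟩ := hg
  obtain ⟨x', rfl⟩ := Int.dvd_of_emod_eq_zero hx
  obtain ⟨y', rfl⟩ := Int.dvd_of_emod_eq_zero hy
  obtain ⟨c, rfl⟩ := hn
  have : 2 * (l * x' + m * y' + k * (x' * a + y' * b - c * z)) = 1 := by
    linear_combination h + k * hv
  omega

lemma cast_of_dvd {S U t : ℤ} {k : ZMod n} (h1 : (n : ℤ) ∣ S - t * 1)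
    (h2 : (n : ℤ) ∣ U - t * k.val) (hS : 0 ≤ S) (hU : 0 ≤ U) :
    (U.toNat : ZMod n) = S.toNat * k := by
  have e1 := (ZMod.intCast_zmod_eq_zero_iff_dvd _ _).mpr h1
  have e2 := (ZMod.intCast_zmod_eq_zero_iff_dvd _ _).mpr h2
  push_cast at e1 e2
  rw [ZMod.natCast_zmod_val] at e2
  rw [← Int.cast_natCast, ← Int.cast_natCast S.toNat, Int.toNat_of_nonneg hS,
    Int.toNat_of_nonneg hU]
  linear_combination e2 - k * e1

theorem res2_large (hn : Odd n) (hle : 461 ≤ n) (k : ZMod n) : Res n (cub n k (3 * k)) := by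
  have hn0 : (0 : ℤ) < n := by omega
  obtain ⟨x, y, z, hx, hy0, hy, hv, hg⟩ := thue (n := n) (by omega) 1 k.val (Nat.sqrt (n / 5))
    (Nat.sqrt (5 * n)) (by
      have h1 := Nat.lt_succ_sqrt (n / 5)
      have h2 := Nat.lt_succ_sqrt (5 * n)
      simp only [Nat.succ_eq_add_one] at h1 h2
      generalize Nat.sqrt (n / 5) + 1 = X at *
      generalize Nat.sqrt (5 * n) + 1 = Y at *
      have h3 : n < 5 * (X * X) := by omega
      by_contra hc
      have h4 : X * Y ≤ n := by omega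
      have h5 := Nat.mul_le_mul h4 h4
      have h6 := Nat.mul_lt_mul'' h3 h2
      nlinarith)
  have hab : ∃ l m k' : ℤ, l * 1 + m * k.val + k' * n = 1 := ⟨1, 0, 0, by ring⟩
  have b1 : 5 * x ^ 2 ≤ n := by
    have h1 : (Nat.sqrt (n / 5) : ℤ) * Nat.sqrt (n / 5) ≤ (n / 5 : ℕ) := by
      exact_mod_cast Nat.sqrt_le (n / 5)
    have h2 : x ^ 2 ≤ (Nat.sqrt (n / 5) : ℤ) * Nat.sqrt (n / 5) := by
      rw [← sq_abs, sq]
      exact mul_self_le_mul_self (abs_nonneg x) hx
    omega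
  have b2 : y ^ 2 ≤ 5 * n := by
    have h1 : (Nat.sqrt (5 * n) : ℤ) * Nat.sqrt (5 * n) ≤ (5 * n : ℕ) := by
      exact_mod_cast Nat.sqrt_le (5 * n)
    have h2 : y ^ 2 ≤ (Nat.sqrt (5 * n) : ℤ) * Nat.sqrt (5 * n) := by
      rw [sq]
      exact mul_self_le_mul_self hy0 hy
    omega
  have tri : (∃ t S U : ℤ, (n : ℤ) ∣ S - t * 1 ∧ (n : ℤ) ∣ U - t * k.val ∧ InI tri2 S U n) →
      Res n (cub n k (3 * k)) := by
    rintro ⟨t, S, U, h1, h2, h3⟩
    rw [inI_tri2] at h3
    exact Or.inl (wit_tri2 k S.toNat U.toNat (cast_of_dvd h1 h2 (by omega) (by omega))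
      (by omega) (by omega) (by omega))
  by_cases hbig : 12 ≤ |x| ∨ 60 ≤ y
  · exact tri (hit_large2 (by omega) hab hv hg hy0 b1 b2 hbig)
  rw [not_or, not_le, not_le, abs_lt] at hbig
  have h1 := allLt_spec (allLt_spec large2 y.toNat (by omega)) (x + 11).toNat (by omega)
  rw [Int.toNat_of_nonneg hy0, Int.toNat_of_nonneg (by omega), add_sub_cancel_right] at h1
  have c1 : max 461 (max (5 * x ^ 2) ((y ^ 2 + 4) / 5)) ≤ (n : ℤ) :=
    max_le (by omega) (max_le b1 (by omega))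
  have c2 : (0 : ℤ) < max 461 (max (5 * x ^ 2) ((y ^ 2 + 4) / 5)) :=
    lt_max_of_lt_left (by norm_num)
  generalize max 461 (max (5 * x ^ 2) ((y ^ 2 + 4) / 5)) = n₀ at h1 c1 c2
  simp only [dir2, Bool.or_eq_true, Bool.and_eq_true, decide_eq_true_eq, List.any_eq_true] at h1
  rcases h1 with ((h1 | h1) | h1) | ⟨b, hb, h1⟩
  · exact (not_both_even (by exact_mod_cast hn) hv hg h1.1 h1.2).elim
  · have e : (x : ZMod n) + y * k = 0 := by
      have := congrArg (Int.cast : ℤ → ZMod n) hv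
      push_cast at this
      rwa [ZMod.natCast_zmod_val, mul_one, ZMod.natCast_self, zero_mul] at this
    refine res_of_rel2 hn k ?_
    simp only [exc2, List.mem_cons, Prod.mk.injEq, List.not_mem_nil, or_false] at h1
    rcases h1 with ⟨rfl, rfl⟩ | ⟨rfl, rfl⟩ | ⟨rfl, rfl⟩ | ⟨rfl, rfl⟩ | ⟨rfl, rfl⟩ | ⟨rfl, rfl⟩ |
      ⟨rfl, rfl⟩ | ⟨rfl, rfl⟩ | ⟨rfl, rfl⟩ <;> push_cast at e
    · exact Or.inl (by linear_combination k * e)
    · exact Or.inl (by linear_combination -k * e)
    · exact Or.inl (by linear_combination e)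
    · exact Or.inr (Or.inl (by linear_combination e))
    · exact Or.inr (Or.inr (Or.inr (Or.inr (Or.inr (Or.inr ⟨by linear_combination e, by omega⟩)))))
    · exact Or.inr (Or.inr (Or.inr (Or.inl (by linear_combination e))))
    · exact Or.inr (Or.inr (Or.inl (by linear_combination e)))
    · exact Or.inr (Or.inr (Or.inr (Or.inr (Or.inr (Or.inl (by linear_combination e))))))
    · exact Or.inr (Or.inr (Or.inr (Or.inr (Or.inl (by linear_combination e)))))
  · exact tri (hit_of_cert3 hn0 hab hv hg c2 (by norm_num) c1 h1)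
  · have hok := List.all_eq_true.mp boxes_ok b hb
    have hN : 0 < b.N := by
      simp only [Box.ok, Bool.and_eq_true, Nat.blt_eq] at hok
      exact hok.1.1.1.1
    have hN' : (0 : ℤ) < b.N := by exact_mod_cast hN
    obtain ⟨t, S, U, h1, h2, h3⟩ : ∃ t S U : ℤ, (n : ℤ) ∣ S - t * 1 ∧ (n : ℤ) ∣ U - t * k.val ∧
        InI (boxH b) S U n := by
      unfold boxCert at h1
      split_ifs at h1 <;> exact hit_of_cert hn0 hab hv hg c2 hN' c1 h1
    simp only [InI, boxH, List.forall_mem_cons, List.not_mem_nil, false_imp_iff, implies_true,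
      and_true, zero_mul, add_zero, zero_add, neg_mul, neg_le_neg_iff] at h3
    obtain ⟨d1, d2, d3, d4⟩ := h3
    have hS : 0 ≤ S := nonneg_of_mul_nonneg_right (le_trans (by positivity) d1) hN'
    have hU : 0 ≤ U := nonneg_of_mul_nonneg_right (le_trans (by positivity) d3) hN'
    have e := cast_of_dvd h1 h2 hS hU
    rw [← Int.toNat_of_nonneg hS] at d1 d2
    rw [← Int.toNat_of_nonneg hU] at d3 d4
    exact Or.inl (wit_box b hok k _ _ e (by exact_mod_cast d1) (by exact_mod_cast d2)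
      (by exact_mod_cast d3) (by exact_mod_cast d4))

theorem res2 (hn : Odd n) (k : ZMod n) : Res n (cub n k (3 * k)) := by
  rcases Nat.lt_or_ge n 461 with h | h
  · exact res2_small hn h k
  · exact res2_large hn h k

end Pool.Agent.Lib.MP_a01f70_lc
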