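import Pool.Agent.Lib.MP_a01f70_lc.Walsh

/-!
Witnesses against high divisibility for exponents `1 + 2 ^ A + 2 ^ B`, built from digit and carry
patterns on `ZMod n` which are pulled back from patterns on a circle.
-/

set_option linter.unusedSectionVars false

namespace Pool.Agent.Lib.MP_a01f70_lc
open Finset

/-- `2 ^ x` modulo `2 ^ n - 1` -/
def om (n : ℕ) (x : ZMod n) : ZMod (2 ^ n - 1) := 2 ^ x.val

lemma two_pow_self (n : ℕ) : (2 : ZMod (2 ^ n - 1)) ^ n = 1 := by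
  have h : ((2 ^ n - 1 : ℕ) : ZMod (2 ^ n - 1)) = 0 := ZMod.natCast_self _
  rw [Nat.cast_sub Nat.one_le_two_pow] at h
  push_cast at h
  exact sub_eq_zero.mp h

lemma om_natCast (n a : ℕ) : om n (a : ZMod n) = 2 ^ a := by
  rw [om, ZMod.val_natCast]
  conv_rhs => rw [← Nat.mod_add_div a n, pow_add, pow_mul, two_pow_self, one_pow, mul_one]

lemma om_zero (n : ℕ) : om n 0 = 1 := by simp [om]

lemma om_one (n : ℕ) : om n 1 = 2 := by simpa using om_natCast n 1

variable {n : ℕ} [NeZero n]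

lemma om_add (x y : ZMod n) : om n (x + y) = om n x * om n y := by
  conv_lhs => rw [← ZMod.natCast_zmod_val x, ← ZMod.natCast_zmod_val y, ← Nat.cast_add, om_natCast,
    pow_add]
  rfl

/-- the exponent `1 + 2 ^ A + 2 ^ B` -/
def cub (n : ℕ) (A B : ZMod n) : ZMod (2 ^ n - 1) := 1 + om n A + om n B

/-- a relation `δ * j + r = 0` with at most `n / 2` binary digits in total -/
def Wit (n : ℕ) [NeZero n] (δ : ZMod (2 ^ n - 1)) : Prop :=
  ∃ J R : ZMod n → ℕ, δ * ∑ x, (J x : ZMod (2 ^ n - 1)) * om n x + ∑ x, (R x : ZMod _) * om n x = 0 ∧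
    0 < ∑ x, J x + ∑ x, R x ∧ 2 * (∑ x, J x + ∑ x, R x) ≤ n

theorem not_ab_of_wit {F : Type*} [Field F] [Fintype F] [Algebra (ZMod 2) F] {d : ℕ} (hn : Odd n)
    (hc : Fintype.card F = 2 ^ n) (hd : 0 < d) (hw : Wit n d) : ¬ ABF F n d := by
  intro h
  obtain ⟨J, R, h1, h2, h3⟩ := hw
  have := count_ge hn hc h hd ZMod.val J R ((ZMod.natCast_eq_zero_iff _ _).mp (by
    push_cast
    exact h1)) h2
  omega

lemma sum_shift {E : Type*} [AddCommMonoid E] (f : ZMod n → E) (a : ZMod n) :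
    ∑ x, f (x - a) = ∑ x, f x := Equiv.sum_comp (Equiv.subRight a) f

lemma sum_shift_om (f : ZMod n → ℕ) (a : ZMod n) :
    ∑ x, (f (x - a) : ZMod (2 ^ n - 1)) * om n x = om n a * ∑ x, (f x : ZMod _) * om n x := by
  rw [Finset.mul_sum, ← sum_shift (fun x => om n a * ((f x : ZMod (2 ^ n - 1)) * om n x)) a]
  refine Finset.sum_congr rfl fun x _ => ?_
  rw [mul_left_comm, ← om_add, add_sub_cancel]

lemma Wit.shift {δ : ZMod (2 ^ n - 1)} (h : Wit n δ) (c : ZMod n) : Wit n (om n c * δ) := by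
  obtain ⟨J, R, h1, h2, h3⟩ := h
  refine ⟨J, fun x => R (x - c), ?_, ?_, ?_⟩
  · rw [sum_shift_om, mul_assoc, ← mul_add, h1, mul_zero]
  · rwa [sum_shift]
  · rwa [sum_shift]

theorem wit_of_design (A B : ZMod n) (J γ : ZMod n → ℕ)
    (h : ∀ x, γ (x - 1) + J x + J (x - A) + J (x - B) ≤ 2 * γ x) (hγ : ∀ x, 1 ≤ γ x)
    (hc : 2 * ∑ x, γ x ≤ n + 4 * ∑ x, J x) : Wit n (cub n A B) := by
  obtain ⟨R, hR⟩ : ∃ R : ZMod n → ℕ, ∀ x,
      R x + (γ (x - 1) + J x + J (x - A) + J (x - B)) = 2 * γ x :=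
    ⟨fun x => 2 * γ x - (γ (x - 1) + J x + J (x - A) + J (x - B)), fun x => Nat.sub_add_cancel (h x)⟩
  have s1 : ∑ x, R x + (∑ x, γ x + ∑ x, J x + ∑ x, J x + ∑ x, J x) = 2 * ∑ x, γ x := by
    have := Finset.sum_congr (s₁ := univ) rfl fun x _ => hR x
    rwa [Finset.sum_add_distrib, Finset.sum_add_distrib, Finset.sum_add_distrib,
      Finset.sum_add_distrib, sum_shift γ, sum_shift J, sum_shift J, ← Finset.mul_sum] at this
  have s2 : 1 ≤ ∑ x, γ x :=
    (hγ 0).trans (Finset.single_le_sum (fun _ _ => Nat.zero_le _) (Finset.mem_univ 0))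
  refine ⟨J, R, ?_, by omega, by omega⟩
  have s3 : ∑ x, ((R x + (γ (x - 1) + J x + J (x - A) + J (x - B)) : ℕ) : ZMod (2 ^ n - 1)) * om n x
      = ∑ x, ((2 * γ x : ℕ) : ZMod (2 ^ n - 1)) * om n x :=
    Finset.sum_congr rfl fun x _ => by rw [hR]
  push_cast at s3
  simp only [add_mul, Finset.sum_add_distrib, sum_shift_om, om_one, mul_assoc,
    ← Finset.mul_sum] at s3
  unfold cub
  linear_combination s3

theorem wit_of_avg {C : Type*} [Fintype C] [Nonempty C] (A B : ZMod n) (J γ : C → ZMod n → ℕ)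
    (h : ∀ c x, γ c (x - 1) + J c x + J c (x - A) + J c (x - B) ≤ 2 * γ c x)
    (hγ : ∀ c x, 1 ≤ γ c x)
    (hc : 2 * ∑ x, ∑ c, γ c x ≤ Fintype.card C * n + 4 * ∑ x, ∑ c, J c x) : Wit n (cub n A B) := by
  obtain ⟨c, _, hc'⟩ := Finset.exists_le_of_sum_le (s := univ) Finset.univ_nonempty
    (f := fun c => 2 * ∑ x, γ c x) (g := fun c => n + 4 * ∑ x, J c x) (by
      rw [Finset.sum_add_distrib, ← Finset.mul_sum, ← Finset.mul_sum, Finset.sum_const,
        Finset.card_univ, smul_eq_mul, Finset.sum_comm, Finset.sum_comm (f := J)]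
      exact hc)
  exact wit_of_design A B (J c) (γ c) (h c) (hγ c) hc'

theorem wit_of_pull {G : Type*} [AddCommGroup G] [Fintype G] (φ : ZMod n →+ G) (A B : ZMod n)
    (J γ : G → ℕ) (h : ∀ y, γ (y - φ 1) + J y + J (y - φ A) + J (y - φ B) ≤ 2 * γ y)
    (hγ : ∀ y, 1 ≤ γ y) (hc : 2 * ∑ y, γ y ≤ Fintype.card G + 4 * ∑ y, J y) :
    Wit n (cub n A B) := by
  refine wit_of_avg A B (fun c x => J (φ x + c)) (fun c x => γ (φ x + c)) (fun c x => ?_)
    (fun c x => hγ _) ?_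
  · simp only [map_sub, ← add_sub_right_comm]
    exact h _
  · have e : ∀ (f : G → ℕ) (x : ZMod n), ∑ c, f (φ x + c) = ∑ y, f y :=
      fun f x => Equiv.sum_comp (Equiv.addLeft (φ x)) f
    simp only [e, Finset.sum_const, Finset.card_univ, ZMod.card, smul_eq_mul]
    nlinarith [Nat.mul_le_mul_left n hc]

lemma sum_val {E : Type*} [AddCommMonoid E] (f : ℕ → E) :
    ∑ x : ZMod n, f x.val = ∑ i ∈ range n, f i := by
  obtain ⟨m, rfl⟩ := Nat.exists_eq_succ_of_ne_zero (NeZero.ne n)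
  exact Fin.sum_univ_eq_sum_range f (m + 1)

lemma val_sub_nat (y : ZMod n) {S : ℕ} (hS : S ≤ 3 * n) :
    (y - (S : ZMod n)).val = (y.val + 3 * n - S) % n := by
  rw [← ZMod.val_natCast, Nat.cast_sub (by omega)]
  simp

theorem wit_of_grid (N : ℕ) (hN : 0 < N) (f g : ℕ → ℕ) (t A B : ZMod n) (T S U : ℕ)
    (hT : (T : ZMod n) = t) (hS : (S : ZMod n) = t * A) (hU : (U : ZMod n) = t * B)
    (bT : T ≤ 3 * n) (bS : S ≤ 3 * n) (bU : U ≤ 3 * n)
    (h : ∀ y < N * n, g ((y + 3 * (N * n) - N * T) % (N * n)) + f y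
      + f ((y + 3 * (N * n) - N * S) % (N * n)) + f ((y + 3 * (N * n) - N * U) % (N * n)) ≤ 2 * g y)
    (hg : ∀ y, 1 ≤ g y)
    (hc : 2 * ∑ y ∈ range (N * n), g y ≤ N * n + 4 * ∑ y ∈ range (N * n), f y) :
    Wit n (cub n A B) := by
  have : NeZero (N * n) := ⟨(Nat.mul_pos hN (NeZero.pos n)).ne'⟩
  let ι : ZMod n →+ ZMod (N * n) := ZMod.lift n ⟨zmultiplesHom _ (N : ZMod (N * n)), by
    simp only [zmultiplesHom_apply, zsmul_eq_mul, Int.cast_natCast]
    rw [← Nat.cast_mul, mul_comm, ZMod.natCast_self]⟩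
  have hι : ∀ k : ℕ, ι (k : ZMod n) = ((N * k : ℕ) : ZMod (N * n)) := by
    intro k
    rw [← Int.cast_natCast, ZMod.lift_coe]
    simp [mul_comm]
  have b : ∀ {X : ℕ}, X ≤ 3 * n → N * X ≤ 3 * (N * n) := fun h => by
    nlinarith [Nat.mul_le_mul_left N h]
  refine wit_of_pull (ι.comp (AddMonoidHom.mulLeft t)) A B (fun y => f y.val) (fun y => g y.val)
    (fun y => ?_) (fun y => hg _) ?_
  · simp only [AddMonoidHom.comp_apply, AddMonoidHom.coe_mulLeft, mul_one]
    rw [← hS, ← hU, ← hT, hι, hι, hι, val_sub_nat _ (b bT), val_sub_nat _ (b bS),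
      val_sub_nat _ (b bU)]
    exact h _ (ZMod.val_lt y)
  · rw [sum_val, sum_val, ZMod.card]
    exact hc

lemma mod_shift {M y S : ℕ} (hy : y < M) (hS : S ≤ M) :
    (y + 3 * M - S) % M = if S ≤ y then y - S else y + M - S := by
  split_ifs with h
  · rw [show y + 3 * M - S = y - S + 3 * M by omega, Nat.add_mul_mod_self_right,
      Nat.mod_eq_of_lt (by omega)]
  · rw [show y + 3 * M - S = y + M - S + 2 * M by omega, Nat.add_mul_mod_self_right,
      Nat.mod_eq_of_lt (by omega)]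

lemma sum_ite_lt {L M : ℕ} (h : L ≤ M) : ∑ y ∈ range M, (if y < L then 1 else 0) = L := by
  rw [← Finset.card_filter]
  have : (range M).filter (· < L) = range L := by
    ext y
    simp only [Finset.mem_filter, Finset.mem_range]
    omega
  rw [this, Finset.card_range]

/-- the pattern without carries: one arc of length `1 / 4` -/
theorem wit_tri1 (t A B : ZMod n) (S U : ℕ) (hS : (S : ZMod n) = t * A) (hU : (U : ZMod n) = t * B)
    (h1 : n ≤ 4 * S) (h2 : 4 * S + n ≤ 4 * U) (h3 : 4 * U ≤ 3 * n) : Wit n (cub n A B) := by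
  refine wit_of_grid 4 (by norm_num) (fun y => if y < n then 1 else 0) (fun _ => 1) t A B t.val S U
    (ZMod.natCast_zmod_val t) hS hU (by have := ZMod.val_lt t; omega) (by omega) (by omega)
    (fun y hy => ?_) (fun _ => le_rfl) ?_
  · rw [mod_shift hy (S := 4 * S) (by omega), mod_shift hy (S := 4 * U) (by omega)]
    split_ifs <;> omega
  · rw [sum_ite_lt (by omega)]
    simp
    omega

/-- one arc with carries, for the exponents `1 + 2 ^ k + 2 ^ (3 * k)` -/
theorem wit_tri2 (k : ZMod n) (T S : ℕ) (hS : (S : ZMod n) = T * k)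
    (h1 : n ≤ 2 * T + 2 * S) (h2 : 2 * T + n ≤ 8 * S) (h3 : 4 * S ≤ n) :
    Wit n (cub n k (3 * k)) := by
  refine wit_of_grid 2 (by norm_num) (fun y => if y < n - 2 * S then 1 else 0)
    (fun y => 1 + if 2 * S ≤ y ∧ y < n - 2 * S then 1 else 0) T k (3 * k) T S (3 * S)
    rfl hS (by push_cast; rw [hS]; ring) (by omega) (by omega) (by omega)
    (fun y hy => ?_) (fun _ => by omega) ?_
  · rw [mod_shift hy (S := 2 * T) (by omega), mod_shift hy (S := 2 * S) (by omega),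
      mod_shift hy (S := 2 * (3 * S)) (by omega)]
    split_ifs <;> omega
  · have e : ∀ y, (1 + if 2 * S ≤ y ∧ y < n - 2 * S then 1 else 0) + (if y < 2 * S then 1 else 0)
        = 1 + if y < n - 2 * S then 1 else 0 := fun y => by split_ifs <;> omega
    have := Finset.sum_congr (s₁ := range (2 * n)) rfl fun y _ => e y
    rw [Finset.sum_add_distrib, sum_ite_lt (by omega), Finset.sum_add_distrib (f := fun _ => 1)
      (g := fun y => if y < n - 2 * S then 1 else 0), sum_ite_lt (by omega)] at this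
    rw [sum_ite_lt (by omega)]
    simp only [Finset.sum_const, Finset.card_range, smul_eq_mul, mul_one] at this
    omega

end Pool.Agent.Lib.MP_a01f70_lc
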