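import Pool.Agent.Lib.MP_a01f70_lc.Walsh

/-!
Power maps that are not APN: Gold exponents with a common divisor, and seven sporadic exponents.
-/

set_option linter.unusedSectionVars false

namespace Pool.Agent.Lib.MP_a01f70_lc
open Finset Polynomial

/-- the power map `x ^ d` is not APN -/
def NAPN (F : Type*) [Field F] (d : ℕ) : Prop :=
  ∃ x y : F, x ^ d + y ^ d + (x + y + 1) ^ d = 1 ∧ x ≠ 1 ∧ y ≠ 1 ∧ x ≠ y

section field
variable {F : Type*} [Field F] [Fintype F] [Algebra (ZMod 2) F]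

theorem not_ab_of_napn {n d : ℕ} (hn : Odd n) (hc : Fintype.card F = 2 ^ n) (h : NAPN F d) :
    ¬ ABF F n d := fun hab => by
  obtain ⟨x, y, h0, hx, hy, hxy⟩ := h
  exact hxy (apn_of_ab hn hc hab x y h0 hx hy)

theorem NAPN.congr {n d e c : ℕ} (hc : Fintype.card F = 2 ^ n) (hd : 0 < d) (he : 0 < e)
    (hde : d ≡ 2 ^ c * e [MOD 2 ^ n - 1]) (h : NAPN F e) : NAPN F d := by
  have := charP_two F
  obtain ⟨x, y, h0, h1⟩ := h
  have key : ∀ z : F, z ^ d = (z ^ e) ^ 2 ^ c := by
    intro z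
    rw [← pow_mul, mul_comm]
    by_cases hz : z = 0
    · rw [hz, zero_pow hd.ne', zero_pow (by positivity)]
    · exact pow_eq_pow_of_modEq hde (hc ▸ FiniteField.pow_card_sub_one_eq_one z hz)
  refine ⟨x, y, ?_, h1⟩
  rw [key, key, key, ← add_pow_char_pow, ← add_pow_char_pow, h0, one_pow]

theorem napn_gold {n k : ℕ} (hc : Fintype.card F = 2 ^ n) (h : ¬ Nat.Coprime n k) (hn : n ≠ 0) :
    NAPN F (2 ^ k + 1) := by
  classical
  have := charP_two F
  have g0 : 0 < Nat.gcd n k := Nat.gcd_pos_of_pos_left _ (Nat.pos_of_ne_zero hn)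
  have g1 : 2 ≤ Nat.gcd n k := by
    have : Nat.gcd n k ≠ 1 := h
    omega
  have g2 : 2 ^ 2 ≤ 2 ^ Nat.gcd n k := Nat.pow_le_pow_right (by norm_num) g1
  obtain ⟨p, hp, hpd⟩ := Nat.exists_prime_and_dvd (n := 2 ^ Nat.gcd n k - 1) (by omega)
  have := Fact.mk hp
  obtain ⟨u, hu⟩ := exists_prime_orderOf_dvd_card (G := Fˣ) p (by
    rw [Fintype.card_units, hc]
    exact hpd.trans (Nat.pow_sub_one_dvd_pow_sub_one 2 (Nat.gcd_dvd_left n k)))
  have h1 : (u : F) ≠ 1 := fun h => by
    rw [Units.val_eq_one] at h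
    rw [h, orderOf_one] at hu
    exact hp.one_lt.ne hu
  have h2 : u ^ (2 ^ k - 1) = 1 := orderOf_dvd_iff_pow_eq_one.mp (by
    rw [hu]
    exact hpd.trans (Nat.pow_sub_one_dvd_pow_sub_one 2 (Nat.gcd_dvd_right n k)))
  have h3 : (u : F) ^ 2 ^ k = u := by
    rw [← Nat.sub_add_cancel (Nat.one_le_two_pow (n := k)), pow_succ, ← Units.val_pow_eq_pow_val,
      h2, Units.val_one, one_mul]
  refine ⟨0, u, ?_, zero_ne_one, h1, u.ne_zero.symm⟩
  rw [zero_pow (by positivity), zero_add, zero_add, pow_succ, pow_succ, add_pow_char_pow, h3,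
    one_pow]
  linear_combination add_self_F ((u : F) * u) + add_self_F (u : F)

end field

section model
variable {R : Type*} [CommRing R]

/-- value at `α` of the polynomial whose coefficients are the binary digits of `m` -/
def ev (α : R) (m : ℕ) : R :=
  if _h : m = 0 then 0 else ((m % 2 : ℕ) : R) + α * ev α (m / 2)
termination_by m
decreasing_by omega

lemma ev_zero (α : R) : ev α 0 = 0 := by rw [ev]; simp

lemma ev_eq (α : R) (m : ℕ) : ev α m = ((m % 2 : ℕ) : R) + α * ev α (m / 2) := by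
  by_cases h : m = 0
  · simp [h, ev_zero]
  · rw [ev, dif_neg h]

lemma ev_one (α : R) : ev α 1 = 1 := by rw [ev_eq]; simp [ev_zero]

lemma ev_two_mul (α : R) (m : ℕ) : ev α (2 * m) = α * ev α m := by
  rw [ev_eq]; simp

lemma ev_xor {α : R} (h2 : (2 : R) = 0) (a b : ℕ) : ev α (a ^^^ b) = ev α a + ev α b := by
  induction a using Nat.strong_induction_on generalizing b with
  | _ a ih =>
    by_cases ha : a = 0
    · simp [ha, ev_zero]
    rw [ev_eq α (a ^^^ b), ev_eq α a, ev_eq α b, Nat.xor_div_two, ih _ (by omega)]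
    have h := @Nat.xor_mod_two_eq_one a b
    rcases Nat.mod_two_eq_zero_or_one a with h1 | h1 <;>
      rcases Nat.mod_two_eq_zero_or_one b with h3 | h3 <;>
      rcases Nat.mod_two_eq_zero_or_one (a ^^^ b) with h4 | h4 <;>
      simp only [h1, h3, h4] at h ⊢ <;> simp at h ⊢ <;> ring_nf
    simp [h2]

lemma ev_map {S : Type*} [CommRing S] (φ : R →+* S) (α : R) (m : ℕ) :
    φ (ev α m) = ev (φ α) m := by
  induction m using Nat.strong_induction_on with
  | _ m ih =>
    by_cases hm : m = 0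
    · simp [hm, ev_zero]
    rw [ev_eq, ev_eq (φ α), map_add, map_mul, ih _ (by omega), map_natCast]

lemma coeff_ev (m i : ℕ) (h : m.testBit i = true) : (ev (X : (ZMod 2)[X]) m).coeff i = 1 := by
  induction i generalizing m with
  | zero =>
    rw [Nat.testBit_zero, decide_eq_true_eq] at h
    rw [ev_eq, h]
    simp
  | succ i ih =>
    rw [Nat.testBit_succ] at h
    rw [ev_eq, coeff_add, coeff_X_mul, ih _ h, ← C_eq_natCast, coeff_C_succ, zero_add]

/-- multiplication modulo `P` -/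
noncomputable def mulF (n P k : ℕ) : ℕ → ℕ → ℕ :=
  Nat.rec (fun _ _ => 0) (fun _ ih a b => cond (Nat.beq b 0) 0
    (cond (Nat.beq (b % 2) 1) a 0 ^^^
      ih (cond ((2 * a).testBit n) (2 * a ^^^ P) (2 * a)) (b / 2))) k

lemma ev_mulF {α : R} (h2 : (2 : R) = 0) {n P : ℕ} (hP : ev α P = 0) (k a b : ℕ) (hb : b < 2 ^ k) :
    ev α (mulF n P k a b) = ev α a * ev α b := by
  induction k generalizing a b with
  | zero =>
    obtain rfl : b = 0 := by omega
    rw [ev_zero, mul_zero]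
    exact ev_zero α
  | succ k ih =>
    show ev α (cond (Nat.beq b 0) 0 (cond (Nat.beq (b % 2) 1) a 0 ^^^
      mulF n P k (cond ((2 * a).testBit n) (2 * a ^^^ P) (2 * a)) (b / 2))) = _
    by_cases h0 : b = 0
    · subst h0
      simp [ev_zero]
    have e0 : Nat.beq b 0 = false := by simpa [← Bool.not_eq_true, Nat.beq_eq] using h0
    have e1 : ev α (cond ((2 * a).testBit n) (2 * a ^^^ P) (2 * a)) = α * ev α a := by
      cases (2 * a).testBit n
      · exact ev_two_mul α a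
      · rw [cond_true, ev_xor h2, hP, add_zero, ev_two_mul]
    rw [e0, cond_false, ev_xor h2, ih _ _ (by omega), e1, ev_eq α b]
    rcases Nat.mod_two_eq_zero_or_one b with h | h <;> rw [h]
    · simp [show Nat.beq 0 1 = false from rfl, ev_zero, mul_left_comm, mul_assoc]
    · simp only [show Nat.beq 1 1 = true from rfl, cond_true]
      push_cast
      ring

/-- powers modulo `P` -/
noncomputable def powF (n P k : ℕ) : ℕ → ℕ → ℕ :=
  Nat.rec (fun _ _ => 1) (fun _ ih x e => cond (Nat.beq e 0) 1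
    (mulF n P (cond (Nat.beq (e % 2) 1) x 1) (ih (mulF n P x x x) (e / 2))
      (cond (Nat.beq (e % 2) 1) x 1))) k

lemma ev_powF {α : R} (h2 : (2 : R) = 0) {n P : ℕ} (hP : ev α P = 0) (k x e : ℕ) (he : e < 2 ^ k) :
    ev α (powF n P k x e) = ev α x ^ e := by
  induction k generalizing x e with
  | zero =>
    obtain rfl : e = 0 := by omega
    rw [pow_zero]
    exact ev_one α
  | succ k ih =>
    show ev α (cond (Nat.beq e 0) 1 (mulF n P (cond (Nat.beq (e % 2) 1) x 1)
      (powF n P k (mulF n P x x x) (e / 2)) (cond (Nat.beq (e % 2) 1) x 1))) = _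
    by_cases h0 : e = 0
    · subst h0
      simp [ev_one]
    have e0 : Nat.beq e 0 = false := by simpa [← Bool.not_eq_true, Nat.beq_eq] using h0
    rw [e0, cond_false, ev_mulF h2 hP _ _ _ Nat.lt_two_pow_self, ih _ _ (by omega),
      ev_mulF h2 hP _ _ _ Nat.lt_two_pow_self, ← pow_two, ← pow_mul]
    conv_rhs => rw [← Nat.div_add_mod e 2, pow_add]
    rcases Nat.mod_two_eq_zero_or_one e with h | h <;> rw [h]
    · simp [show Nat.beq 0 1 = false from rfl, ev_one]
    · simp only [show Nat.beq 1 1 = true from rfl, cond_true, pow_one]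

/-- check of a witness against the APN property -/
noncomputable def napnOK (n P e x y : ℕ) : Bool :=
  P.testBit n && Nat.beq (powF n P (2 ^ n) 2 (2 ^ n)) 2 &&
  Nat.beq (powF n P e x e ^^^ powF n P e y e ^^^ powF n P e (x ^^^ y ^^^ 1) e) 1 &&
  Nat.beq (powF n P n (x ^^^ 1) (2 ^ n - 1)) 1 && Nat.beq (powF n P n (y ^^^ 1) (2 ^ n - 1)) 1 &&
  Nat.beq (powF n P n (x ^^^ y) (2 ^ n - 1)) 1

end model

theorem napn_of_ok {F : Type*} [Field F] [Fintype F] [Algebra (ZMod 2) F] {n P e x y : ℕ}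
    (hc : Fintype.card F = 2 ^ n) (hn : n ≠ 0) (h : napnOK n P e x y = true) : NAPN F e := by
  simp only [napnOK, Bool.and_eq_true, Nat.beq_eq] at h
  obtain ⟨⟨⟨⟨⟨h0, h1⟩, h2⟩, h3⟩, h4⟩, h5⟩ := h
  set p : (ZMod 2)[X] := ev X P with hp
  have two : ∀ (S : Type _) [CommRing S] [Algebra (ZMod 2) S], (2 : S) = 0 := by
    intro S _ _
    rw [← map_ofNat (algebraMap (ZMod 2) S) 2, show (OfNat.ofNat 2 : ZMod 2) = 0 from rfl, map_zero]
  have a1 : ev (AdjoinRoot.root p) P = 0 := by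
    rw [← AdjoinRoot.mk_X, ← ev_map, AdjoinRoot.mk_self]
  have a2 : ev (AdjoinRoot.root p) 2 = AdjoinRoot.root p := by
    simpa [ev_one] using ev_two_mul (AdjoinRoot.root p) 1
  have a3 := ev_powF (n := n) (two _) a1 (2 ^ n) 2 (2 ^ n) Nat.lt_two_pow_self
  rw [h1, a2] at a3
  have a4 : p ∣ X ^ 2 ^ n - X := by
    rw [← AdjoinRoot.mk_eq_zero, map_sub, map_pow, AdjoinRoot.mk_X, ← a3, sub_self]
  have a5 := (FiniteField.splits_X_pow_card_sub_X 2 (K := F)).of_dvd
    (Polynomial.map_ne_zero (FiniteField.X_pow_card_sub_X_ne_zero _ Fintype.one_lt_card))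
    (Polynomial.map_dvd _ (hc ▸ a4))
  obtain ⟨α, hα⟩ := a5.exists_eval_eq_zero (by
    rw [degree_map]
    intro hd
    have := coeff_eq_zero_of_degree_lt (p := p) (n := n) (by
      rw [hd]
      exact_mod_cast Nat.pos_of_ne_zero hn)
    rw [hp, coeff_ev P n h0] at this
    exact one_ne_zero this)
  have b1 : ev α P = 0 := by
    rw [eval_map, ← coe_eval₂RingHom, hp, ev_map, coe_eval₂RingHom, eval₂_X] at hα
    exact hα
  have t2 : (2 : F) = 0 := by rw [← one_add_one_eq_two, add_self_F]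
  have hM : 2 ^ n - 1 ≠ 0 := by
    have := Nat.one_lt_two_pow hn
    omega
  have nz : ∀ a b, powF n P n (a ^^^ b) (2 ^ n - 1) = 1 → ev α a ≠ ev α b := by
    intro a b h hab
    have := ev_powF (n := n) t2 b1 n (a ^^^ b) (2 ^ n - 1) (by omega)
    rw [h, ev_one, ev_xor t2, hab, add_self_F, zero_pow hM] at this
    exact one_ne_zero this
  refine ⟨ev α x, ev α y, ?_, ev_one α ▸ nz _ _ h3, ev_one α ▸ nz _ _ h4, nz _ _ h5⟩
  have := congrArg (ev α) h2
  rwa [ev_xor t2, ev_xor t2, ev_powF t2 b1 _ _ _ Nat.lt_two_pow_self,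
    ev_powF t2 b1 _ _ _ Nat.lt_two_pow_self, ev_powF t2 b1 _ _ _ Nat.lt_two_pow_self, ev_xor t2,
    ev_xor t2, ev_one] at this

/-- the sporadic exponents: field degree, modulus, exponent and witness -/
def spor : List (ℕ × ℕ × ℕ × ℕ × ℕ) :=
  [(11, 2053, 25, 828, 1267), (11, 2053, 37, 1941, 383), (11, 2053, 81, 1654, 2),
   (13, 8219, 19, 3660, 7012), (13, 8219, 161, 1402, 1727), (17, 131081, 35, 55772, 107331),
   (17, 131081, 25, 101803, 119883)]

theorem spor_ok : spor.all (fun s => napnOK s.1 s.2.1 s.2.2.1 s.2.2.2.1 s.2.2.2.2) = true := by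
  decide +kernel

end Pool.Agent.Lib.MP_a01f70_lc
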