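import Mathlib

/-!
A cyclic subgroup of the two-dimensional torus meets a given convex region unless it satisfies a
short linear relation.
-/

namespace Pool.Agent.Lib.MP_a01f70_lc
open Finset

theorem hit_seg {n a b x y z : ℤ} (hn : 0 < n) (hab : ∃ l m k, l * a + m * b + k * n = 1)
    (hv : x * a + y * b = n * z) (hg : ∃ l m k, l * x + m * y + k * z = 1) (i : ℤ) (p q : ℚ)
    (hp : x * p + y * q = i) :
    ∃ t S U : ℤ, n ∣ S - t * a ∧ n ∣ U - t * b ∧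
      ∃ r : ℚ, 0 ≤ r ∧ r ≤ 1 ∧ (S : ℚ) = n * p + r * y ∧ (U : ℚ) = n * q - r * x := by
  obtain ⟨l', m', k', h1⟩ := hab
  obtain ⟨l, m, k, h2⟩ := hg
  have hxy : (0 : ℤ) < x ^ 2 + y ^ 2 := by
    by_contra h
    have hx : x = 0 := by nlinarith [sq_nonneg x, sq_nonneg y]
    have hy : y = 0 := by nlinarith [sq_nonneg x, sq_nonneg y]
    have hz : z = 0 := by
      rw [hx, hy] at hv
      simpa [hn.ne'] using hv
    simp [hx, hy, hz] at h2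
  have hxy' : (x : ℚ) ^ 2 + y ^ 2 ≠ 0 := by exact_mod_cast hxy.ne'
  set S₀ := i * (l * n + k * a) with hS₀
  set U₀ := i * (m * n + k * b) with hU₀
  have h3 : x * S₀ + y * U₀ = i * n := by
    rw [hS₀, hU₀]
    linear_combination i * k * hv + i * n * h2
  have h4 : (x : ℚ) * (S₀ - n * p) + y * (U₀ - n * q) = 0 := by
    have : (x : ℚ) * S₀ + y * U₀ = i * n := by exact_mod_cast h3
    linear_combination this - n * hp
  set r₀ : ℚ := ((S₀ - n * p) * y - (U₀ - n * q) * x) / (x ^ 2 + y ^ 2) with hr₀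
  have h5 : r₀ * y = S₀ - n * p := by
    rw [hr₀, div_mul_eq_mul_div, div_eq_iff hxy']
    linear_combination (-x) * h4
  have h6 : r₀ * x = -(U₀ - n * q) := by
    rw [hr₀, div_mul_eq_mul_div, div_eq_iff hxy']
    linear_combination y * h4
  refine ⟨i * k - ⌊r₀⌋ * (l' * y - m' * x), S₀ - ⌊r₀⌋ * y, U₀ + ⌊r₀⌋ * x,
    ⟨i * l - ⌊r₀⌋ * (y * k' + m' * z), ?_⟩, ⟨i * m + ⌊r₀⌋ * (x * k' + l' * z), ?_⟩,
    r₀ - ⌊r₀⌋, by linarith [Int.floor_le r₀], by linarith [Int.lt_floor_add_one r₀], ?_, ?_⟩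
  · rw [hS₀]
    linear_combination (⌊r₀⌋ * y) * h1 - ⌊r₀⌋ * m' * hv
  · rw [hU₀]
    linear_combination (-⌊r₀⌋ * x) * h1 + ⌊r₀⌋ * l' * hv
  · push_cast
    linear_combination -h5
  · push_cast
    linear_combination h6

/-- the point `(S / n, U / n)` lies in an intersection of half planes -/
def InI (H : List (ℤ × ℤ × ℤ)) (S U n : ℤ) : Prop := ∀ h ∈ H, h.2.2 * n ≤ h.1 * S + h.2.1 * U

theorem hit_region {n a b x y z : ℤ} (hn : 0 < n) (hab : ∃ l m k, l * a + m * b + k * n = 1)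
    (hv : x * a + y * b = n * z) (hg : ∃ l m k, l * x + m * y + k * z = 1)
    (H : List (ℤ × ℤ × ℤ)) {n₀ E : ℤ} (hn₀ : 0 < n₀) (hE : 0 < E) (hle : n₀ ≤ n)
    {u₁ w₁ u₂ w₂ i : ℤ} (c1 : InI H u₁ w₁ (n₀ * E)) (c2 : InI H (u₁ + y * E) (w₁ - x * E) (n₀ * E))
    (c3 : InI H u₂ w₂ (n₀ * E)) (c4 : InI H (u₂ + y * E) (w₂ - x * E) (n₀ * E))
    (lo : x * u₁ + y * w₁ ≤ i * (n₀ * E)) (hi : i * (n₀ * E) ≤ x * u₂ + y * w₂) :
    ∃ t S U : ℤ, n ∣ S - t * a ∧ n ∣ U - t * b ∧ InI H S U n := by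
  have hD : (0 : ℚ) < n₀ * E := by exact_mod_cast mul_pos hn₀ hE
  have lo' : (x : ℚ) * u₁ + y * w₁ ≤ i * (n₀ * E) := by exact_mod_cast lo
  have hi' : (i : ℚ) * (n₀ * E) ≤ x * u₂ + y * w₂ := by exact_mod_cast hi
  obtain ⟨s, hs0, hs1, hs⟩ : ∃ s : ℚ, 0 ≤ s ∧ s ≤ 1 ∧
      (1 - s) * (x * u₁ + y * w₁) + s * (x * u₂ + y * w₂) = i * (n₀ * E) := by
    rcases (lo'.trans hi').eq_or_lt with h | h
    · exact ⟨0, le_rfl, zero_le_one, by linarith⟩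
    · have h' := sub_pos.mpr h
      refine ⟨(i * (n₀ * E) - (x * u₁ + y * w₁)) / (x * u₂ + y * w₂ - (x * u₁ + y * w₁)),
        div_nonneg (by linarith) h'.le, (div_le_one h').mpr (by linarith), ?_⟩
      field_simp
      ring
  obtain ⟨t, S, U, h1, h2, r, hr0, hr1, hS, hU⟩ := hit_seg hn hab hv hg i
    (((1 - s) * u₁ + s * u₂) / (n₀ * E)) (((1 - s) * w₁ + s * w₂) / (n₀ * E)) (by
      rw [← mul_div_assoc, ← mul_div_assoc, ← add_div, div_eq_iff hD.ne']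
      linear_combination hs)
  refine ⟨t, S, U, h1, h2, fun h hh => ?_⟩
  obtain ⟨α, β, κ⟩ := h
  have d1 : (κ : ℚ) * (n₀ * E) ≤ α * u₁ + β * w₁ := by exact_mod_cast c1 _ hh
  have d2 : (κ : ℚ) * (n₀ * E) ≤ α * (u₁ + y * E) + β * (w₁ - x * E) := by exact_mod_cast c2 _ hh
  have d3 : (κ : ℚ) * (n₀ * E) ≤ α * u₂ + β * w₂ := by exact_mod_cast c3 _ hh
  have d4 : (κ : ℚ) * (n₀ * E) ≤ α * (u₂ + y * E) + β * (w₂ - x * E) := by exact_mod_cast c4 _ hh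
  have hle' : (n₀ : ℚ) ≤ n := by exact_mod_cast hle
  have hn₀' : (0 : ℚ) < n₀ := by exact_mod_cast hn₀
  have e1 : 0 ≤ (1 - s) * (α * u₁ + β * w₁) + s * (α * u₂ + β * w₂) - κ * (n₀ * E) := by
    nlinarith [mul_nonneg hs0 (sub_nonneg.mpr d3), mul_nonneg (sub_nonneg.mpr hs1)
      (sub_nonneg.mpr d1)]
  have e2 : 0 ≤ (1 - s) * (α * u₁ + β * w₁) + s * (α * u₂ + β * w₂) + E * (α * y - β * x)
      - κ * (n₀ * E) := by
    nlinarith [mul_nonneg hs0 (sub_nonneg.mpr d4), mul_nonneg (sub_nonneg.mpr hs1)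
      (sub_nonneg.mpr d2)]
  have e3 : 0 ≤ n - r * n₀ := by nlinarith
  have e4 : (α * S + β * U - κ * n : ℚ) * (n₀ * E)
      = (n - r * n₀) * ((1 - s) * (α * u₁ + β * w₁) + s * (α * u₂ + β * w₂) - κ * (n₀ * E))
        + r * n₀ * ((1 - s) * (α * u₁ + β * w₁) + s * (α * u₂ + β * w₂) + E * (α * y - β * x)
          - κ * (n₀ * E)) := by
    rw [hS, hU]
    field_simp
    ring
  have e5 : 0 ≤ (α * S + β * U - κ * n : ℚ) * (n₀ * E) := by
    rw [e4]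
    positivity
  have e6 : (κ : ℚ) * n ≤ α * S + β * U := sub_nonneg.mp ((mul_nonneg_iff_of_pos_right hD).mp e5)
  exact_mod_cast e6

/-- Thue's lemma, with a primitive relation -/
theorem thue {n : ℕ} (hn : 0 < n) (a b : ℤ) (X Y : ℕ) (h : n < (X + 1) * (Y + 1)) :
    ∃ x y z : ℤ, |x| ≤ X ∧ 0 ≤ y ∧ y ≤ Y ∧ x * a + y * b = n * z ∧
      ∃ l m k, l * x + m * y + k * z = 1 := by
  have : NeZero n := ⟨hn.ne'⟩
  obtain ⟨p, hp, q, hq, hne, he⟩ := Finset.exists_ne_map_eq_of_card_lt_of_maps_to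
    (s := range (X + 1) ×ˢ range (Y + 1)) (t := (univ : Finset (ZMod n))) (by simpa using h)
    (f := fun p => ((p.1 * a + p.2 * b : ℤ) : ZMod n)) (fun _ _ => by simp)
  simp only [Finset.mem_product, Finset.mem_range] at hp hq
  have s1 : ∃ x y z : ℤ, |x| ≤ X ∧ 0 ≤ y ∧ y ≤ Y ∧ x * a + y * b = n * z ∧ (x ≠ 0 ∨ y ≠ 0) := by
    obtain ⟨z, hz⟩ := (ZMod.intCast_eq_intCast_iff_dvd_sub _ _ _).mp he
    have hne' : (q.1 : ℤ) - p.1 ≠ 0 ∨ (q.2 : ℤ) - p.2 ≠ 0 := by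
      by_contra hc
      push Not at hc
      exact hne (Prod.ext (by omega) (by omega))
    rcases le_total p.2 q.2 with h2 | h2
    · exact ⟨q.1 - p.1, q.2 - p.2, z, by rw [abs_le]; omega, by omega, by omega,
        by linear_combination hz, hne'⟩
    · exact ⟨p.1 - q.1, p.2 - q.2, -z, by rw [abs_le]; omega, by omega, by omega,
        by linear_combination -hz, by omega⟩
  obtain ⟨x, y, z, hx, hy0, hy, hv, hne⟩ := s1
  have g1 : 0 < Int.gcd x y := Int.gcd_pos_iff.mpr hne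
  have g2 : 0 < Int.gcd (Int.gcd x y) z := Int.gcd_pos_iff.mpr (Or.inl (by omega))
  have b1 := Int.gcd_eq_gcd_ab x y
  have b2 := Int.gcd_eq_gcd_ab (Int.gcd x y) z
  obtain ⟨x', hx'⟩ := (Int.gcd_dvd_left (Int.gcd x y) z).trans (Int.gcd_dvd_left x y)
  obtain ⟨y', hy'⟩ := (Int.gcd_dvd_left (Int.gcd x y) z).trans (Int.gcd_dvd_right x y)
  obtain ⟨z', hz'⟩ := Int.gcd_dvd_right (Int.gcd x y) z
  generalize Int.gcdA (Int.gcd x y) z = c₁ at b2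
  generalize Int.gcdB (Int.gcd x y) z = c₂ at b2
  generalize Int.gcdA x y = c₃ at b1
  generalize Int.gcdB x y = c₄ at b1
  have g3 : (0 : ℤ) < Int.gcd (Int.gcd x y) z := by exact_mod_cast g2
  generalize (Int.gcd (Int.gcd x y) z : ℤ) = g at *
  generalize (Int.gcd x y : ℤ) = g' at *
  subst hx' hy' hz'
  refine ⟨x', y', z', ?_, ?_, ?_, ?_, c₃ * c₁, c₄ * c₁, c₂, ?_⟩
  · rw [abs_mul, abs_of_pos g3] at hx
    nlinarith [abs_nonneg x']
  · exact nonneg_of_mul_nonneg_right hy0 g3 |> fun h => by nlinarith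
  · nlinarith [nonneg_of_mul_nonneg_right hy0 g3]
  · exact mul_left_cancel₀ g3.ne' (by linear_combination hv)
  · exact mul_left_cancel₀ g3.ne' (by linear_combination -b2 - c₁ * b1)

/-- Boolean version of `InI` -/
def inB (H : List (ℤ × ℤ × ℤ)) (S U n : ℤ) : Bool :=
  H.all fun h => decide (h.2.2 * n ≤ h.1 * S + h.2.1 * U)

lemma inB_spec {H : List (ℤ × ℤ × ℤ)} {S U n : ℤ} (h : inB H S U n = true) : InI H S U n := by
  simpa [inB, InI] using h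

/-- a certificate for the lines `x * u + y * w ∈ ℤ` -/
def certOK (H : List (ℤ × ℤ × ℤ)) (x y n₀ E u₁ w₁ u₂ w₂ : ℤ) : Bool :=
  decide (x * u₁ + y * w₁ ≤ (x * u₂ + y * w₂) / (n₀ * E) * (n₀ * E)) &&
  inB H u₁ w₁ (n₀ * E) && inB H (u₁ + y * E) (w₁ - x * E) (n₀ * E) &&
  inB H u₂ w₂ (n₀ * E) && inB H (u₂ + y * E) (w₂ - x * E) (n₀ * E)

theorem hit_of_cert {n a b x y z : ℤ} (hn : 0 < n) (hab : ∃ l m k, l * a + m * b + k * n = 1)
    (hv : x * a + y * b = n * z) (hg : ∃ l m k, l * x + m * y + k * z = 1)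
    {H : List (ℤ × ℤ × ℤ)} {n₀ E : ℤ} (hn₀ : 0 < n₀) (hE : 0 < E) (hle : n₀ ≤ n)
    {u₁ w₁ u₂ w₂ : ℤ} (h : certOK H x y n₀ E u₁ w₁ u₂ w₂ = true) :
    ∃ t S U : ℤ, n ∣ S - t * a ∧ n ∣ U - t * b ∧ InI H S U n := by
  simp only [certOK, Bool.and_eq_true, decide_eq_true_eq] at h
  obtain ⟨⟨⟨⟨h0, h1⟩, h2⟩, h3⟩, h4⟩ := h
  exact hit_region hn hab hv hg H hn₀ hE hle (inB_spec h1) (inB_spec h2) (inB_spec h3)
    (inB_spec h4) h0 (Int.ediv_mul_le _ (mul_pos hn₀ hE).ne')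

/-- certificates between the three corners of a triangle -/
def cert3 (H : List (ℤ × ℤ × ℤ)) (x y n₀ E u₁ w₁ u₂ w₂ u₃ w₃ : ℤ) : Bool :=
  certOK H x y n₀ E u₁ w₁ u₂ w₂ || certOK H x y n₀ E u₂ w₂ u₁ w₁ ||
  certOK H x y n₀ E u₁ w₁ u₃ w₃ || certOK H x y n₀ E u₃ w₃ u₁ w₁ ||
  certOK H x y n₀ E u₂ w₂ u₃ w₃ || certOK H x y n₀ E u₃ w₃ u₂ w₂

theorem hit_of_cert3 {n a b x y z : ℤ} (hn : 0 < n) (hab : ∃ l m k, l * a + m * b + k * n = 1)
    (hv : x * a + y * b = n * z) (hg : ∃ l m k, l * x + m * y + k * z = 1)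
    {H : List (ℤ × ℤ × ℤ)} {n₀ E : ℤ} (hn₀ : 0 < n₀) (hE : 0 < E) (hle : n₀ ≤ n)
    {u₁ w₁ u₂ w₂ u₃ w₃ : ℤ} (h : cert3 H x y n₀ E u₁ w₁ u₂ w₂ u₃ w₃ = true) :
    ∃ t S U : ℤ, n ∣ S - t * a ∧ n ∣ U - t * b ∧ InI H S U n := by
  simp only [cert3, Bool.or_eq_true] at h
  rcases h with ((((h | h) | h) | h) | h) | h <;> exact hit_of_cert hn hab hv hg hn₀ hE hle h

/-- the triangle of the pattern without carries -/
def tri1 : List (ℤ × ℤ × ℤ) := [(4, 0, 1), (-4, 4, 1), (0, -4, -3)]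

/-- the triangle of the pattern with one arc and carries -/
def tri2 : List (ℤ × ℤ × ℤ) := [(2, 2, 1), (-2, 8, 1), (0, -4, -1)]

lemma inI_tri1 {S U n : ℤ} : InI tri1 S U n ↔ n ≤ 4 * S ∧ 4 * S + n ≤ 4 * U ∧ 4 * U ≤ 3 * n := by
  simp only [InI, tri1, List.forall_mem_cons, List.not_mem_nil, false_imp_iff, implies_true,
    and_true]
  omega

lemma inI_tri2 {S U n : ℤ} :
    InI tri2 S U n ↔ n ≤ 2 * S + 2 * U ∧ 2 * S + n ≤ 8 * U ∧ 4 * U ≤ n := by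
  simp only [InI, tri2, List.forall_mem_cons, List.not_mem_nil, false_imp_iff, implies_true,
    and_true]
  omega

lemma exists_between {lo hi D : ℤ} (hD : 0 < D) (h : lo + D ≤ hi) :
    ∃ i, lo ≤ i * D ∧ i * D ≤ hi :=
  ⟨hi / D, by have := Int.lt_ediv_add_one_mul_self hi hD; nlinarith,
    Int.ediv_mul_le _ hD.ne'⟩

lemma large_aux {X Y n : ℤ} (hn : 0 < n) (hX : 0 ≤ X) (hY : 0 ≤ Y) (h1 : X ^ 2 ≤ n)
    (h2 : Y ^ 2 ≤ n) (h : 12 ≤ X ∨ 12 ≤ Y) : 8 * n ≤ X * n + Y * n - 16 * (X * Y) := by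
  wlog hXY : 12 ≤ X generalizing X Y
  · have := this hY hX h2 h1 h.symm (h.resolve_left hXY)
    linarith
  have h3 : X * Y ≤ n := by nlinarith [sq_nonneg (X - Y)]
  by_cases hy : 12 ≤ Y
  · nlinarith
  · have h4 : 12 * (X * Y) ≤ n * Y := by nlinarith [mul_nonneg hX hY]
    nlinarith

theorem hit_large1 {n a b x y z : ℤ} (hn : 64 ≤ n) (hab : ∃ l m k, l * a + m * b + k * n = 1)
    (hv : x * a + y * b = n * z) (hg : ∃ l m k, l * x + m * y + k * z = 1) (hy : 0 ≤ y)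
    (h1 : x ^ 2 ≤ n) (h2 : y ^ 2 ≤ n) (h : 12 ≤ |x| ∨ 12 ≤ y) :
    ∃ t S U : ℤ, n ∣ S - t * a ∧ n ∣ U - t * b ∧ InI tri1 S U n := by
  have hn0 : 0 < n := by omega
  have key := large_aux hn0 (abs_nonneg x) hy (by rwa [sq_abs]) h2 h
  have b1 : 8 * y ≤ n := by nlinarith
  have b2 : 8 * |x| ≤ n := by nlinarith [sq_abs x, abs_nonneg x]
  rcases le_total 0 x with hx | hx
  · rw [abs_of_nonneg hx] at key b2
    obtain ⟨i, lo, hi⟩ := exists_between (lo := x * (2 * n) + y * (5 * n + 8 * x))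
      (hi := x * (3 * n - 8 * y) + y * (6 * n)) (D := n * 8) (by omega) (by linarith)
    refine hit_region hn0 hab hv hg tri1 hn0 (by norm_num : (0 : ℤ) < 8) le_rfl ?_ ?_ ?_ ?_ lo hi
      <;> rw [inI_tri1] <;> omega
  · rw [abs_of_nonpos hx] at key b2
    obtain ⟨i, lo, hi⟩ := exists_between (lo := x * (3 * n - 8 * y) + y * (5 * n))
      (hi := x * (2 * n) + y * (6 * n + 8 * x)) (D := n * 8) (by omega) (by linarith)
    refine hit_region hn0 hab hv hg tri1 hn0 (by norm_num : (0 : ℤ) < 8) le_rfl ?_ ?_ ?_ ?_ lo hi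
      <;> rw [inI_tri1] <;> omega

theorem hit_large2 {n a b x y z : ℤ} (hn : 320 ≤ n) (hab : ∃ l m k, l * a + m * b + k * n = 1)
    (hv : x * a + y * b = n * z) (hg : ∃ l m k, l * x + m * y + k * z = 1) (hy : 0 ≤ y)
    (h1 : 5 * x ^ 2 ≤ n) (h2 : y ^ 2 ≤ 5 * n) (h : 12 ≤ |x| ∨ 60 ≤ y) :
    ∃ t S U : ℤ, n ∣ S - t * a ∧ n ∣ U - t * b ∧ InI tri2 S U n := by
  have hn0 : 0 < n := by omega
  have key : 40 * n ≤ 5 * |x| * n + y * n - 80 * (|x| * y) := by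
    have hX := abs_nonneg x
    rw [← sq_abs] at h1
    generalize |x| = X at *
    have h3 : X * y ≤ n := by nlinarith [sq_nonneg (5 * X - y)]
    by_cases c1 : 12 ≤ X <;> by_cases c2 : 60 ≤ y
    · nlinarith
    · have h4 : 60 * (X * y) ≤ n * y := by nlinarith [mul_nonneg hX hy]
      nlinarith
    · have h4 : 12 * (X * y) ≤ n * X := by nlinarith [mul_nonneg hX hy]
      nlinarith
    · omega
  have b1 : 8 * y ≤ n := by nlinarith
  have b2 : 40 * |x| ≤ n := by nlinarith [sq_abs x, abs_nonneg x]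
  rcases le_total 0 x with hx | hx
  · rw [abs_of_nonneg hx] at key b2
    obtain ⟨i, lo, hi⟩ := exists_between (lo := x * (22 * n) + y * (18 * n + 80 * x))
      (hi := x * (32 * n - 80 * y) + y * (20 * n)) (D := n * 80) (by omega) (by linarith)
    refine hit_region hn0 hab hv hg tri2 hn0 (by norm_num : (0 : ℤ) < 80) le_rfl ?_ ?_ ?_ ?_ lo hi
      <;> rw [inI_tri2] <;> omega
  · rw [abs_of_nonpos hx] at key b2
    obtain ⟨i, lo, hi⟩ := exists_between (lo := x * (32 * n - 80 * y) + y * (18 * n))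
      (hi := x * (22 * n) + y * (20 * n + 80 * x)) (D := n * 80) (by omega) (by linarith)
    refine hit_region hn0 hab hv hg tri2 hn0 (by norm_num : (0 : ℤ) < 80) le_rfl ?_ ?_ ?_ ?_ lo hi
      <;> rw [inI_tri2] <;> omega

end Pool.Agent.Lib.MP_a01f70_lc
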