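import Pool.Agent.Lib.MP_a01f70_lc.B1

/-!
Almost bent power maps whose exponent is equivalent to a sum of three powers of two.
-/

set_option linter.unusedSectionVars false

namespace Pool.Agent.Lib.MP_a01f70_lc
open Finset

lemma Wit.inv {n : ℕ} [NeZero n] {δ δ' : ZMod (2 ^ n - 1)} {c : ZMod n} (h : Wit n δ)
    (hc : δ' * δ = om n c) : Wit n δ' := by
  obtain ⟨J, R, h1, h2, h3⟩ := h
  refine ⟨R, fun x => J (x - c), ?_, ?_, ?_⟩
  · rw [sum_shift_om, ← hc]
    linear_combination δ' * h1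
  · rwa [sum_shift, add_comm]
  · rwa [sum_shift, add_comm]

variable {F : Type*} [Field F] [Fintype F] [Algebra (ZMod 2) F]

theorem NAPN.inv {n d e c : ℕ} (hc : Fintype.card F = 2 ^ n) (hd : 0 < d) (he : 0 < e)
    (hde : d * e ≡ 2 ^ c [MOD 2 ^ n - 1]) (h : NAPN F e) : NAPN F d := by
  have := charP_two F
  obtain ⟨x, y, h0, h1, h2, h3⟩ := h
  have key : ∀ z : F, (z ^ e) ^ d = z ^ 2 ^ c := by
    intro z
    rw [← pow_mul, mul_comm]
    by_cases hz : z = 0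
    · rw [hz, zero_pow (Nat.mul_pos hd he).ne', zero_pow (by positivity)]
    · exact pow_eq_pow_of_modEq hde (hc ▸ FiniteField.pow_card_sub_one_eq_one z hz)
  have inj : ∀ z w : F, z ^ e = w ^ e → z = w := by
    intro z w hzw
    have e1 : (z + w) ^ 2 ^ c = 0 := by rw [add_pow_char_pow, ← key, ← key, hzw, add_self_F]
    linear_combination (pow_eq_zero_iff (by positivity)).mp e1 - add_self_F w
  refine ⟨x ^ e, y ^ e, ?_, fun h => h1 (inj _ _ (by rw [h, one_pow])),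
    fun h => h2 (inj _ _ (by rw [h, one_pow])), fun h => h3 (inj _ _ h)⟩
  rw [show x ^ e + y ^ e + 1 = (x + y + 1) ^ e by
    linear_combination -h0 + add_self_F (x ^ e) + add_self_F (y ^ e)]
  rw [key, key, key, ← add_pow_char_pow, ← add_pow_char_pow,
    show x + y + (x + y + 1) = 1 by linear_combination add_self_F x + add_self_F y, one_pow]

theorem main {n d r s t i : ℕ} (hn : Odd n) (hc : Fintype.card F = 2 ^ n) (hd : 1 ≤ d)
    (h : d ≡ 2 ^ r + 2 ^ s + 2 ^ t [MOD 2 ^ n - 1] ∨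
      d * (2 ^ r + 2 ^ s + 2 ^ t) ≡ 2 ^ i [MOD 2 ^ n - 1]) (hab : ABF F n d) :
    ∃ e j : ℕ, ((∃ k : ℕ, Nat.Coprime n k ∧ e = 2 ^ k + 1) ∨ e = 13 ∨ e = 2 ^ ((n - 1) / 2) + 3 ∨
      e = 11 ∨ e = 2 ^ ((n + 3) / 2) + 3) ∧
      (d ≡ 2 ^ j * e [MOD 2 ^ n - 1] ∨ d * e ≡ 2 ^ j [MOD 2 ^ n - 1]) := by
  have : NeZero n := ⟨by rintro rfl; exact absurd hn (by decide)⟩
  have e0 : ((2 ^ r + 2 ^ s + 2 ^ t : ℕ) : ZMod (2 ^ n - 1))
      = om n r * cub n ((s : ZMod n) - r) ((t : ZMod n) - r) := by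
    unfold cub
    rw [mul_add, mul_add, ← om_add, ← om_add, add_sub_cancel, add_sub_cancel, om_natCast,
      om_natCast, om_natCast]
    push_cast
    ring
  have hR := (res1 hn ((s : ZMod n) - r) ((t : ZMod n) - r)).shift r
  rw [← e0] at hR
  rw [← ZMod.natCast_eq_natCast_iff, ← ZMod.natCast_eq_natCast_iff, Nat.cast_mul, Nat.cast_pow,
    Nat.cast_ofNat, ← om_natCast] at h
  generalize ((2 ^ r + 2 ^ s + 2 ^ t : ℕ) : ZMod (2 ^ n - 1)) = δ at h hR
  have eqv : ∀ (c : ZMod n) (e : ℕ), δ = om n c * e →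
      ∃ j, d ≡ 2 ^ j * e [MOD 2 ^ n - 1] ∨ d * e ≡ 2 ^ j [MOD 2 ^ n - 1] := by
    intro c e he
    rcases h with h | h
    · refine ⟨c.val, Or.inl ((ZMod.natCast_eq_natCast_iff _ _ _).mp ?_)⟩
      rw [h, he]
      push_cast
      rfl
    · refine ⟨((i : ZMod n) - c).val, Or.inr ((ZMod.natCast_eq_natCast_iff _ _ _).mp ?_)⟩
      have e1 : om n (-c) * om n c = 1 := by rw [← om_add, neg_add_cancel, om_zero]
      have e2 : om n ((i : ZMod n) - c) = om n i * om n (-c) := by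
        rw [← om_add, sub_eq_add_neg]
      push_cast
      show _ = om n ((i : ZMod n) - c)
      rw [e2, ← h, he]
      linear_combination (-(d : ZMod (2 ^ n - 1)) * e) * e1
  have nap : ∀ e j : ℕ, 0 < e → NAPN F e →
      ¬ (d ≡ 2 ^ j * e [MOD 2 ^ n - 1] ∨ d * e ≡ 2 ^ j [MOD 2 ^ n - 1]) := by
    rintro e j he h1 (h2 | h2)
    · exact not_ab_of_napn hn hc (h1.congr hc hd he h2) hab
    · exact not_ab_of_napn hn hc (h1.inv hc hd he h2) hab
  rcases hR with hR | ⟨c, k, hR⟩ | ⟨c, e, he, hR⟩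
  · rcases h with h | h
    · exact (not_ab_of_wit hn hc hd (h ▸ hR) hab).elim
    · exact (not_ab_of_wit hn hc hd (hR.inv h) hab).elim
  · obtain ⟨j, hj⟩ := eqv c (2 ^ k.val + 1) (by rw [hR]; push_cast; rfl)
    by_cases hk : Nat.Coprime n k.val
    · exact ⟨_, j, Or.inl ⟨_, hk, rfl⟩, hj⟩
    · exact (nap _ j (by positivity) (napn_gold hc hk (NeZero.ne n)) hj).elim
  · obtain ⟨j, hj⟩ := eqv c e hR
    simp only [exps, List.mem_cons, List.mem_map, List.mem_filter, Nat.beq_eq] at he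
    rcases he with he | he | he | he | ⟨p, ⟨hp, hp'⟩, he⟩
    · exact ⟨e, j, by simp [he], hj⟩
    · exact ⟨e, j, by simp [he], hj⟩
    · exact ⟨e, j, by simp [he], hj⟩
    · exact ⟨e, j, by simp [he], hj⟩
    · have h1 := List.all_eq_true.mp spor_ok p hp
      rw [hp', he] at h1
      have h2 : ∀ p ∈ spor, 0 < p.2.2.1 := by decide
      exact (nap e j (he ▸ h2 p hp) (napn_of_ok hc (NeZero.ne n) h1) hj).elim

end Pool.Agent.Lib.MP_a01f70_lc
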