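import Pool.Agent.Lib.MP_a01f70_lc.Design

/-!
Patterns given by bit masks, with checks that the kernel can run.
-/

set_option linter.unusedSectionVars false

namespace Pool.Agent.Lib.MP_a01f70_lc
open Finset

/-- a binary digit -/
def bit (j i : ℕ) : ℕ := (j.testBit i).toNat

/-- the number of ones among the lowest `k` binary digits -/
noncomputable def pc (k : ℕ) : ℕ → ℕ :=
  Nat.rec (fun _ => 0) (fun _ ih j => Nat.add (Nat.mod j 2) (ih (Nat.div j 2))) k

lemma bit_zero (j : ℕ) : bit j 0 = j % 2 := by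
  unfold bit
  rw [Nat.testBit_zero]
  rcases Nat.mod_two_eq_zero_or_one j with h | h <;> simp [h]

lemma bit_succ (j i : ℕ) : bit j (i + 1) = bit (j / 2) i := by
  unfold bit
  rw [Nat.testBit_succ]

lemma pc_eq (k j : ℕ) : pc k j = ∑ i ∈ range k, bit j i := by
  induction k generalizing j with
  | zero => rfl
  | succ k ih =>
    rw [Finset.sum_range_succ']
    simp only [bit_zero, bit_succ, ← ih]
    exact Nat.add_comm _ _

lemma sum_bit_mul (k j : ℕ) : ∑ i ∈ range k, bit j i * 2 ^ i = j % 2 ^ k := by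
  induction k generalizing j with
  | zero => simp [Nat.mod_one]
  | succ k ih =>
    rw [Finset.sum_range_succ']
    simp only [bit_zero, bit_succ, pow_succ', mul_left_comm _ 2, ← Finset.mul_sum, ih]
    rw [Nat.mod_mul]
    ring

lemma bit_le_of_imp {j i j' i' : ℕ} (h : j.testBit i = true → j'.testBit i' = true) :
    bit j i ≤ bit j' i' := by
  unfold bit
  cases h1 : j.testBit i
  · simp
  · simp [h h1]

/-- periodic extension of a mask of length `N` -/
def ext (N J : ℕ) : ℕ := J ||| J <<< N ||| J <<< (2 * N) ||| J <<< (3 * N)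

lemma ext_bit {N J i : ℕ} (hi : i < 4 * N) (h : J.testBit (i % N) = true) :
    (ext N J).testBit i = true := by
  unfold ext
  simp only [Nat.testBit_or, Nat.testBit_shiftLeft, Bool.or_eq_true, Bool.and_eq_true,
    decide_eq_true_eq]
  by_cases h1 : i < N
  · rw [Nat.mod_eq_of_lt h1] at h
    exact Or.inl (Or.inl (Or.inl h))
  by_cases h2 : i < 2 * N
  · rw [show i = i - N + 1 * N by omega, Nat.add_mul_mod_self_right,
      Nat.mod_eq_of_lt (by omega)] at h
    exact Or.inl (Or.inl (Or.inr ⟨by omega, h⟩))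
  by_cases h3 : i < 3 * N
  · rw [show i = i - 2 * N + 2 * N by omega, Nat.add_mul_mod_self_right,
      Nat.mod_eq_of_lt (by omega)] at h
    exact Or.inl (Or.inr ⟨by omega, h⟩)
  · rw [show i = i - 3 * N + 3 * N by omega, Nat.add_mul_mod_self_right,
      Nat.mod_eq_of_lt (by omega)] at h
    exact Or.inr ⟨by omega, h⟩

/-- union of the shifts of `X` by `b, …, b + w` -/
noncomputable def smear (X b w : ℕ) : ℕ :=
  Nat.rec (X >>> b) (fun i acc => acc ||| X >>> (b + i + 1)) w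

lemma smear_bit {X b w j i : ℕ} (hj : j ≤ w) (h : X.testBit (b + j + i) = true) :
    (smear X b w).testBit i = true := by
  induction w with
  | zero =>
    obtain rfl : j = 0 := by omega
    show (X >>> b).testBit i = true
    rwa [Nat.testBit_shiftRight]
  | succ w ih =>
    show (smear X b w ||| X >>> (b + w + 1)).testBit i = true
    rw [Nat.testBit_or, Bool.or_eq_true, Nat.testBit_shiftRight]
    by_cases hw : j ≤ w
    · exact Or.inl (ih hw)
    · obtain rfl : j = w + 1 := by omega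
      exact Or.inr h

/-- the carry inequality at all positions below `N` -/
def locOK (N P X Y Z G : ℕ) : Bool :=
  Nat.beq (((X &&& Y ||| X &&& Z ||| Y &&& Z ||| P &&& X ||| P &&& Y ||| P &&& Z) % 2 ^ N) ||| G) G
    && Nat.beq ((X &&& Y &&& Z &&& P) % 2 ^ N) 0

lemma locOK_spec {N P X Y Z G i : ℕ} (h : locOK N P X Y Z G = true) (hi : i < N) :
    1 + bit P i + bit X i + bit Y i + bit Z i ≤ 2 * (1 + bit G i) := by
  unfold locOK at h
  rw [Bool.and_eq_true, Nat.beq_eq, Nat.beq_eq] at h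
  have h1 := congrArg (Nat.testBit · i) h.1
  have h2 := congrArg (Nat.testBit · i) h.2
  simp only [Nat.testBit_or, Nat.testBit_and, Nat.testBit_mod_two_pow, hi, decide_true,
    Bool.true_and, Nat.zero_testBit] at h1 h2
  unfold bit
  revert h1 h2
  cases P.testBit i <;> cases X.testBit i <;> cases Y.testBit i <;> cases Z.testBit i <;>
    cases G.testBit i <;> decide

lemma sum_div_mod {E : Type*} [AddCommMonoid E] (N n : ℕ) (f : ℕ → ℕ → E) :
    ∑ y ∈ range (N * n), f (y / n) (y % n) = ∑ i ∈ range N, ∑ j ∈ range n, f i j := by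
  induction N with
  | zero => simp
  | succ N ih =>
    rw [Nat.succ_mul, Finset.sum_range_add, ih, Finset.sum_range_succ]
    congr 1
    refine Finset.sum_congr rfl fun j hj => ?_
    have hj' := Finset.mem_range.mp hj
    rw [Nat.add_comm, Nat.add_mul_div_right _ _ (by omega), Nat.add_mul_mod_self_right,
      Nat.div_eq_of_lt hj', Nat.mod_eq_of_lt hj', zero_add]

lemma cell_bit {N n y S q₁ q₂ J : ℕ} (hy : y < N * n) (h1 : q₁ * n ≤ S) (h2 : S ≤ q₂ * n)
    (hq : q₂ ≤ 3 * N) :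
    bit J ((y + 3 * (N * n) - S) % (N * n) / n)
      ≤ bit (smear (ext N J) (3 * N - q₂) (q₂ - q₁)) (y / n) := by
  have hn : 0 < n := Nat.pos_of_mul_pos_left (lt_of_le_of_lt (Nat.zero_le _) hy)
  refine bit_le_of_imp fun h => ?_
  rw [Nat.mod_mul_left_div_self] at h
  have hq' : q₂ * n ≤ 3 * (N * n) := by nlinarith [Nat.mul_le_mul_right n hq]
  have a0 := Nat.div_add_mod y n
  have a0' := Nat.mod_lt y hn
  have a1 : 3 * N - q₂ + y / n ≤ (y + 3 * (N * n) - S) / n := by
    rw [Nat.le_div_iff_mul_le hn, add_mul, Nat.sub_mul, mul_assoc, mul_comm (y / n)]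
    omega
  have a2 : (y + 3 * (N * n) - S) / n < 3 * N - q₁ + y / n + 1 := by
    rw [Nat.div_lt_iff_lt_mul hn, add_mul, add_mul, Nat.sub_mul, mul_assoc, mul_comm (y / n)]
    omega
  have a3 : y / n < N := (Nat.div_lt_iff_lt_mul hn).mpr hy
  have a4 : q₁ ≤ q₂ := Nat.le_of_mul_le_mul_right (h1.trans h2) hn
  refine smear_bit (j := (y + 3 * (N * n) - S) / n - (3 * N - q₂ + y / n)) (by omega) ?_
  rw [show 3 * N - q₂ + ((y + 3 * (N * n) - S) / n - (3 * N - q₂ + y / n)) + y / n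
    = (y + 3 * (N * n) - S) / n by omega]
  exact ext_bit (by omega) h

/-- a pattern on a grid of size `N` valid on the box `[p₁, p₂] × [q₁, q₂]` -/
structure Box where
  (N p₁ p₂ q₁ q₂ J G : ℕ)

/-- the check of a box pattern -/
noncomputable def Box.ok (b : Box) : Bool :=
  Nat.blt 0 b.N && Nat.ble b.p₂ (3 * b.N) && Nat.ble b.q₂ b.N &&
  locOK b.N (smear (ext b.N b.G) (3 * b.N - b.p₂) (b.p₂ - b.p₁)) b.J
    (smear (ext b.N b.J) (3 * b.N - b.q₂) (b.q₂ - b.q₁))
    (smear (ext b.N b.J) (3 * b.N - 3 * b.q₂) (3 * b.q₂ - 3 * b.q₁)) b.G &&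
  Nat.ble (2 * (b.N + pc b.N b.G)) (b.N + 4 * pc b.N b.J)

variable {n : ℕ} [NeZero n]

theorem wit_box (b : Box) (hb : b.ok = true) (k : ZMod n) (T S : ℕ) (hS : (S : ZMod n) = T * k)
    (h1 : b.p₁ * n ≤ b.N * T) (h2 : b.N * T ≤ b.p₂ * n) (h3 : b.q₁ * n ≤ b.N * S)
    (h4 : b.N * S ≤ b.q₂ * n) : Wit n (cub n k (3 * k)) := by
  obtain ⟨N, p₁, p₂, q₁, q₂, J, G⟩ := b
  simp only [Box.ok, Bool.and_eq_true, Nat.blt_eq, Nat.ble_eq] at hb h1 h2 h3 h4
  obtain ⟨⟨⟨⟨b0, b1⟩, b2⟩, b3⟩, b4⟩ := hb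
  have hn := NeZero.pos n
  have c1 : T ≤ 3 * n := Nat.le_of_mul_le_mul_left
    (by nlinarith [Nat.mul_le_mul_right n b1]) b0
  have c2 : S ≤ n := Nat.le_of_mul_le_mul_left
    (by nlinarith [Nat.mul_le_mul_right n b2]) b0
  refine wit_of_grid N b0 (fun y => bit J (y / n)) (fun y => 1 + bit G (y / n)) T k (3 * k)
    T S (3 * S) rfl hS (by push_cast; rw [hS]; ring) c1 (by omega) (by omega)
    (fun y hy => ?_) (fun _ => by omega) ?_
  · have d0 := locOK_spec b3 ((Nat.div_lt_iff_lt_mul hn).mpr hy)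
    have d1 := cell_bit (J := G) hy h1 h2 b1
    have d2 := cell_bit (J := J) hy h3 h4 (by omega)
    have d3 := cell_bit (J := J) (q₁ := 3 * q₁) (q₂ := 3 * q₂) (S := N * (3 * S)) hy
      (by nlinarith) (by nlinarith) (by omega)
    omega
  · rw [sum_div_mod N n fun i _ => 1 + bit G i, sum_div_mod N n fun i _ => bit J i]
    simp only [Finset.sum_const, Finset.card_range, smul_eq_mul, ← Finset.mul_sum,
      Finset.sum_add_distrib, ← pc_eq, mul_one]
    nlinarith [Nat.mul_le_mul_left n b4]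

/-- the check of one column -/
def colOK (m a b P J G : ℕ) : Bool :=
  locOK m P J (ext m J >>> (3 * m - a)) (ext m J >>> (3 * m - b)) G

lemma colOK_spec {m a b P J G : ℕ} [NeZero m] (h : colOK m a b P J G = true) (ha : a ≤ 3 * m)
    (hb : b ≤ 3 * m) (w : ZMod m) :
    1 + bit P w.val + bit J w.val + bit J (w - a).val + bit J (w - b).val
      ≤ 2 * (1 + bit G w.val) := by
  have hw := ZMod.val_lt w
  have d0 := locOK_spec h hw
  have d : ∀ a ≤ 3 * m, bit J (w - (a : ℕ)).val ≤ bit (ext m J >>> (3 * m - a)) w.val := by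
    intro a ha
    refine bit_le_of_imp fun h => ?_
    rw [val_sub_nat _ ha] at h
    rw [Nat.testBit_shiftRight, show 3 * m - a + w.val = w.val + 3 * m - a by omega]
    exact ext_bit (by omega) h
  have d1 := d a ha
  have d2 := d b hb
  omega

lemma val_add_nat (z : ZMod n) (c : ℕ) : (z + c).val = (z.val + c) % n := by
  rw [← ZMod.val_natCast]
  simp

theorem wit_col {m g : ℕ} [NeZero m] (hn : n = m * g) (A B a b : ℕ) (s : ZMod m)
    (hA : s * A = a) (hB : s * B = b) (ha : a ≤ 3 * m) (hb : b ≤ 3 * m) (Jc Gc : ℕ → ℕ)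
    (h0 : colOK m a b 0 (Jc 0) (Gc 0) = true)
    (h1 : ∀ v, v + 1 < g → colOK m a b (Gc v) (Jc (v + 1)) (Gc (v + 1)) = true)
    (h2 : Gc (g - 1) = 0)
    (hc : 2 * ∑ v ∈ range g, (m + pc m (Gc v)) ≤ m * g + 4 * ∑ v ∈ range g, pc m (Jc v)) :
    Wit n (cub n (g * A : ℕ) (g * B : ℕ)) := by
  have hg : 0 < g := Nat.pos_of_mul_pos_left (hn ▸ NeZero.pos n)
  have key : ∀ (x : ZMod n) (k : ℕ), (x - (g * k : ℕ)).val % g = x.val % g ∧
      (((x - (g * k : ℕ)).val / g : ℕ) : ZMod m) = (x.val / g : ℕ) - k := by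
    intro x k
    obtain ⟨z, rfl⟩ : ∃ z, x = z + (g * k : ℕ) := ⟨x - (g * k : ℕ), by simp⟩
    rw [add_sub_cancel_right, val_add_nat]
    generalize z.val = r
    rw [hn, Nat.mod_mul_left_div_self, Nat.mod_mul_left_mod, Nat.add_mul_mod_self_left,
      Nat.add_mul_div_left _ _ hg]
    simp
  refine wit_of_avg _ _
    (fun (c : ZMod m) x => bit (Jc (x.val % g)) (s * (x.val / g : ℕ) + c).val)
    (fun (c : ZMod m) x => 1 + bit (Gc (x.val % g)) (s * (x.val / g : ℕ) + c).val)
    (fun c x => ?_) (fun _ _ => by omega) ?_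
  · simp only [(key x A).1, (key x A).2, (key x B).1, (key x B).2, mul_sub, hA, hB,
      ← add_sub_right_comm]
    obtain ⟨z, rfl⟩ : ∃ z, x = z + (1 : ℕ) := ⟨x - 1, by simp⟩
    rw [show z + (1 : ℕ) - 1 = z by simp, val_add_nat]
    have hz := ZMod.val_lt z
    generalize z.val = r at hz
    have e0 := Nat.div_add_mod r g
    have e1 := Nat.mod_lt r hg
    by_cases hr : r % g + 1 < g
    · have e2 : r / g < m := (Nat.div_lt_iff_lt_mul hg).mpr (hn ▸ hz)
      have e3 : r + 1 < n := by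
        rw [hn]
        nlinarith [Nat.mul_le_mul_left g (Nat.succ_le_of_lt e2)]
      have e4 : r + 1 = r % g + 1 + g * (r / g) := by omega
      rw [Nat.mod_eq_of_lt e3, e4, Nat.add_mul_mod_self_left, Nat.add_mul_div_left _ _ hg,
        Nat.mod_eq_of_lt hr, Nat.div_eq_of_lt hr, zero_add]
      exact colOK_spec (h1 _ hr) ha hb _
    · have e2 : r % g = g - 1 := by omega
      have e3 : (r + 1) % n % g = 0 := by
        rw [hn, Nat.mod_mul_left_mod, show r + 1 = g * (r / g + 1) by rw [mul_add]; omega,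
          Nat.mul_mod_right]
      rw [e2, e3, h2]
      have := colOK_spec h0 ha hb (s * ((r + 1) % n / g : ℕ) + c)
      simp only [bit, Nat.zero_testBit, Bool.toNat_false] at this ⊢
      exact this
  · have e : ∀ (f : ZMod m → ℕ) (u : ZMod m), ∑ c, f (u + c) = ∑ y, f y :=
      fun f x => Equiv.sum_comp (Equiv.addLeft x) f
    have e1 : ∀ (X : ℕ) (u : ZMod m), ∑ c, bit X (u + c).val = pc m X := fun X u => by
      rw [e (fun y => bit X y.val), sum_val (bit X), pc_eq]
    simp only [Finset.sum_add_distrib, e1, Finset.sum_const, Finset.card_univ, ZMod.card,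
      smul_eq_mul, mul_one]
    rw [sum_val fun y => pc m (Gc (y % g)), sum_val fun y => pc m (Jc (y % g)), hn,
      sum_div_mod m g fun _ v => pc m (Gc v), sum_div_mod m g fun _ v => pc m (Jc v)]
    simp only [Finset.sum_add_distrib, Finset.sum_const, Finset.card_range, smul_eq_mul] at hc ⊢
    nlinarith [Nat.mul_le_mul_left m hc]

/-- one column without carries, repeated -/
noncomputable def oneOK (m a b J : ℕ) : Bool :=
  colOK m a b 0 J 0 && Nat.ble m (4 * pc m J)

theorem wit_one {m g : ℕ} [NeZero m] (hn : n = m * g) (A B a b : ℕ) (s : ZMod m)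
    (hA : s * A = a) (hB : s * B = b) (ha : a ≤ 3 * m) (hb : b ≤ 3 * m) {J : ℕ}
    (h : oneOK m a b J = true) : Wit n (cub n (g * A : ℕ) (g * B : ℕ)) := by
  simp only [oneOK, Bool.and_eq_true, Nat.ble_eq] at h
  refine wit_col hn A B a b s hA hB ha hb (fun _ => J) (fun _ => 0) h.1 (fun _ _ => h.1) rfl ?_
  have : pc m 0 = 0 := by simp [pc_eq, bit]
  simp only [this, Finset.sum_const, Finset.card_range, smul_eq_mul]
  nlinarith [Nat.mul_le_mul_left g h.2]

/-- a block of three columns followed by copies of a block of two columns -/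
noncomputable def blockOK (m a b J₀ G₀ J₁ G₁ J₂ K₀ H₀ K₁ : ℕ) : Bool :=
  colOK m a b 0 J₀ G₀ && colOK m a b G₀ J₁ G₁ && colOK m a b G₁ J₂ 0 &&
  colOK m a b 0 K₀ H₀ && colOK m a b H₀ K₁ 0 &&
  Nat.ble (2 * (3 * m + pc m G₀ + pc m G₁)) (3 * m + 4 * (pc m J₀ + pc m J₁ + pc m J₂)) &&
  Nat.ble (2 * (2 * m + pc m H₀)) (2 * m + 4 * (pc m K₀ + pc m K₁))

theorem wit_block {m g : ℕ} [NeZero m] (hn : n = m * g) (hg : Odd g) (hg3 : 3 ≤ g) (A B a b : ℕ)
    (s : ZMod m) (hA : s * A = a) (hB : s * B = b) (ha : a ≤ 3 * m) (hb : b ≤ 3 * m)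
    {J₀ G₀ J₁ G₁ J₂ K₀ H₀ K₁ : ℕ} (h : blockOK m a b J₀ G₀ J₁ G₁ J₂ K₀ H₀ K₁ = true) :
    Wit n (cub n (g * A : ℕ) (g * B : ℕ)) := by
  simp only [blockOK, Bool.and_eq_true, Nat.ble_eq] at h
  obtain ⟨⟨⟨⟨⟨⟨c0, c1⟩, c2⟩, c3⟩, c4⟩, c5⟩, c6⟩ := h
  obtain ⟨r, rfl⟩ : ∃ r, g = 3 + 2 * r := by
    obtain ⟨k, hk⟩ := hg
    exact ⟨k - 1, by omega⟩
  have p0 : pc m 0 = 0 := by simp [pc_eq, bit]
  refine wit_col hn A B a b s hA hB ha hb
    (fun v => if v = 0 then J₀ else if v = 1 then J₁ else if v = 2 then J₂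
      else if v % 2 = 1 then K₀ else K₁)
    (fun v => if v = 0 then G₀ else if v = 1 then G₁ else if v % 2 = 1 then H₀ else 0)
    c0 (fun v _ => ?_) ?_ ?_
  · rcases Nat.lt_or_ge v 2 with hv | hv
    · interval_cases v
      · exact c1
      · exact c2
    · rcases Nat.mod_two_eq_zero_or_one v with h | h
      · have h' : (v + 1) % 2 = 1 := by omega
        simp only [show v ≠ 0 by omega, show v ≠ 1 by omega, show v + 1 ≠ 0 by omega,
          show v + 1 ≠ 1 by omega, show v + 1 ≠ 2 by omega, h, h', if_false, if_true,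
          Nat.zero_ne_one]
        exact c3
      · have h' : (v + 1) % 2 = 0 := by omega
        simp only [show v ≠ 0 by omega, show v ≠ 1 by omega, show v + 1 ≠ 0 by omega,
          show v + 1 ≠ 1 by omega, show v + 1 ≠ 2 by omega, h, h', if_false, if_true,
          Nat.zero_ne_one]
        exact c4
  · simp only [show 3 + 2 * r - 1 ≠ 0 by omega, show 3 + 2 * r - 1 ≠ 1 by omega,
      show (3 + 2 * r - 1) % 2 = 0 by omega, if_false, Nat.zero_ne_one]
  · clear hn hg hg3
    induction r with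
    | zero =>
      simp [Finset.sum_range_succ, p0]
      omega
    | succ r ih =>
      rw [show 3 + 2 * (r + 1) = 3 + 2 * r + 1 + 1 by ring]
      simp only [Finset.sum_range_succ _ (3 + 2 * r + 1), Finset.sum_range_succ _ (3 + 2 * r),
        show 3 + 2 * r ≠ 0 by omega, show 3 + 2 * r ≠ 1 by omega, show 3 + 2 * r ≠ 2 by omega,
        show 3 + 2 * r + 1 ≠ 0 by omega, show 3 + 2 * r + 1 ≠ 1 by omega,
        show 3 + 2 * r + 1 ≠ 2 by omega, show (3 + 2 * r) % 2 = 1 by omega,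
        show (3 + 2 * r + 1) % 2 = 0 by omega, if_false, if_true, Nat.zero_ne_one, p0]
      rw [mul_add m, mul_add m]
      omega

/-- an explicit multiplier `j` -/
noncomputable def witOK (n d j : ℕ) : Bool :=
  Nat.blt j (2 ^ n) && Nat.blt 0 (pc n j) &&
    Nat.ble (2 * (pc n j + pc n ((2 ^ n - 1 - d * j % (2 ^ n - 1)) % (2 ^ n - 1)))) n

theorem wit_of_witOK {d j : ℕ} (h : witOK n d j = true) : Wit n d := by
  simp only [witOK, Bool.and_eq_true, Nat.blt_eq, Nat.ble_eq] at h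
  obtain ⟨⟨h1, h2⟩, h3⟩ := h
  have hM : 0 < 2 ^ n - 1 := by
    have := Nat.one_lt_two_pow (NeZero.ne n)
    omega
  set r := (2 ^ n - 1 - d * j % (2 ^ n - 1)) % (2 ^ n - 1) with hr
  have hr' : r < 2 ^ n := lt_of_lt_of_le (Nat.mod_lt _ hM) (Nat.sub_le _ _)
  have e : ∀ X < 2 ^ n, ∑ x : ZMod n, (bit X x.val : ZMod (2 ^ n - 1)) * om n x = X := by
    intro X hX
    have := congrArg (Nat.cast : ℕ → ZMod (2 ^ n - 1)) (sum_bit_mul n X)
    rw [Nat.mod_eq_of_lt hX] at this
    push_cast at this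
    rw [← this]
    exact sum_val fun i => (bit X i : ZMod (2 ^ n - 1)) * 2 ^ i
  refine ⟨fun x => bit j x.val, fun x => bit r x.val, ?_, ?_, ?_⟩
  · rw [e j h1, e r hr', hr, ZMod.natCast_mod, Nat.cast_sub (Nat.mod_lt _ hM).le,
      ZMod.natCast_self, ZMod.natCast_mod]
    push_cast
    ring
  · rw [sum_val (bit j), ← pc_eq]
    omega
  · rw [sum_val (bit j), sum_val (bit r), ← pc_eq, ← pc_eq]
    exact h3

end Pool.Agent.Lib.MP_a01f70_lc
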