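import Pool.Agent.Lib.MP_a01f70_lc.Masks
import Pool.Agent.Lib.MP_a01f70_lc.Lattice
import Pool.Agent.Lib.MP_a01f70_lc.Field

/-!
The possible outcomes for an exponent `1 + 2 ^ A + 2 ^ B`, and the short relations.
-/

set_option linter.unusedSectionVars false

namespace Pool.Agent.Lib.MP_a01f70_lc
open Finset

/-- bounded search -/
noncomputable def anyLt (p : ℕ → Bool) (k : ℕ) : Bool := Nat.rec false (fun i acc => p i || acc) k

/-- bounded check -/
noncomputable def allLt (p : ℕ → Bool) (k : ℕ) : Bool := Nat.rec true (fun i acc => p i && acc) k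

lemma anyLt_spec {p : ℕ → Bool} {k : ℕ} (h : anyLt p k = true) : ∃ i < k, p i = true := by
  induction k with
  | zero => exact absurd h Bool.false_ne_true
  | succ k ih =>
    have h' : (p k || anyLt p k) = true := h
    rw [Bool.or_eq_true] at h'
    rcases h' with h' | h'
    · exact ⟨k, Nat.lt_succ_self k, h'⟩
    · obtain ⟨i, hi, hp⟩ := ih h'
      exact ⟨i, Nat.lt_succ_of_lt hi, hp⟩

lemma allLt_spec {p : ℕ → Bool} {k : ℕ} (h : allLt p k = true) : ∀ i < k, p i = true := by
  induction k with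
  | zero => intro i hi; omega
  | succ k ih =>
    have h' : (p k && allLt p k) = true := h
    rw [Bool.and_eq_true] at h'
    intro i hi
    rcases Nat.lt_succ_iff_lt_or_eq.mp hi with hi | rfl
    · exact ih h'.2 i hi
    · exact h'.1

/-- the exponents that escape the divisibility criterion -/
def exps (n : ℕ) : List ℕ :=
  11 :: 13 :: (2 ^ ((n - 1) / 2) + 3) :: (2 ^ ((n + 3) / 2) + 3) ::
    (spor.filter fun s => Nat.beq s.1 n).map fun s => s.2.2.1

/-- the possible outcomes -/
def Res (n : ℕ) [NeZero n] (δ : ZMod (2 ^ n - 1)) : Prop :=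
  Wit n δ ∨ (∃ c k : ZMod n, δ = om n c * (om n k + 1)) ∨
    ∃ c : ZMod n, ∃ e ∈ exps n, δ = om n c * (e : ℕ)

/-- check for membership in the class of one of the exponents `exps n` -/
noncomputable def famOK (n d : ℕ) : Bool :=
  (exps n).any fun e => anyLt (fun c => Nat.beq (d % (2 ^ n - 1)) (2 ^ c * e % (2 ^ n - 1))) n

variable {n : ℕ} [NeZero n]

lemma Res.shift {δ : ZMod (2 ^ n - 1)} (h : Res n δ) (c : ZMod n) : Res n (om n c * δ) := by
  rcases h with h | ⟨c', k, h⟩ | ⟨c', e, he, h⟩
  · exact Or.inl (h.shift c)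
  · exact Or.inr (Or.inl ⟨c + c', k, by rw [h, om_add, mul_assoc]⟩)
  · exact Or.inr (Or.inr ⟨c + c', e, he, by rw [h, om_add, mul_assoc]⟩)

lemma res_of_famOK {d : ℕ} (h : famOK n d = true) : Res n d := by
  simp only [famOK, List.any_eq_true] at h
  obtain ⟨e, he, h⟩ := h
  obtain ⟨c, _, hc⟩ := anyLt_spec h
  rw [Nat.beq_eq] at hc
  refine Or.inr (Or.inr ⟨c, e, he, ?_⟩)
  have := (ZMod.natCast_eq_natCast_iff' _ _ _).mpr hc
  rw [this, om_natCast]
  push_cast
  rfl

lemma cub_natCast (a b : ℕ) :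
    cub n (a : ZMod n) (b : ZMod n) = ((1 + 2 ^ a + 2 ^ b : ℕ) : ZMod (2 ^ n - 1)) := by
  rw [cub, om_natCast, om_natCast]
  push_cast
  rfl

lemma cub_comm (A B : ZMod n) : cub n A B = cub n B A := by
  unfold cub
  ring

lemma cub_rot (A B : ZMod n) : cub n A B = om n A * cub n (B - A) (-A) := by
  unfold cub
  rw [mul_add, mul_add, ← om_add, ← om_add, add_sub_cancel, add_neg_cancel, om_zero]
  ring

lemma res_zero (B : ZMod n) : Res n (cub n 0 B) := by
  refine Or.inr (Or.inl ⟨1, B - 1, ?_⟩)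
  rw [mul_add, ← om_add, add_sub_cancel, cub, om_zero, om_one]
  ring

lemma res_same (A : ZMod n) : Res n (cub n A A) := by
  rw [cub_rot, sub_self]
  exact (res_zero _).shift _

/-- the short relations for the first triangle -/
def exc1 : List (ℤ × ℤ) :=
  [(1, 0), (-1, 0), (0, 1), (-1, 1), (2, 1), (1, 2), (-1, 3), (-3, 1), (-2, 3), (-3, 2)]

theorem res_of_exc1 (h2 : ∀ k : ZMod n, Res n (cub n k (3 * k))) (A B : ZMod n) {x y : ℤ}
    (hv : (x, y) ∈ exc1) (h : (x : ZMod n) * A + y * B = 0) : Res n (cub n A B) := by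
  have a1 : ∀ A B : ZMod n, 2 * A + B = 0 → Res n (cub n A B) := fun A B h => by
    rw [cub_rot, cub_comm, show B - A = 3 * -A by linear_combination h]
    exact (h2 _).shift _
  have a2 : ∀ A B : ZMod n, 3 * B = 2 * A → Res n (cub n A B) := fun A B h => by
    rw [cub_rot, show -A = 3 * (B - A) by linear_combination -h]
    exact (h2 _).shift _
  simp only [exc1, List.mem_cons, Prod.mk.injEq, List.not_mem_nil, or_false] at hv
  rcases hv with ⟨rfl, rfl⟩ | ⟨rfl, rfl⟩ | ⟨rfl, rfl⟩ | ⟨rfl, rfl⟩ | ⟨rfl, rfl⟩ | ⟨rfl, rfl⟩ |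
    ⟨rfl, rfl⟩ | ⟨rfl, rfl⟩ | ⟨rfl, rfl⟩ | ⟨rfl, rfl⟩ <;> push_cast at h
  · rw [show A = 0 by linear_combination h]
    exact res_zero _
  · rw [show A = 0 by linear_combination -h]
    exact res_zero _
  · rw [show B = 0 by linear_combination h, cub_comm]
    exact res_zero _
  · rw [show B = A by linear_combination h]
    exact res_same _
  · exact a1 A B (by linear_combination h)
  · rw [cub_comm]
    exact a1 B A (by linear_combination h)
  · rw [cub_comm, show A = 3 * B by linear_combination -h]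
    exact h2 _
  · rw [show B = 3 * A by linear_combination h]
    exact h2 _
  · exact a2 A B (by linear_combination h)
  · rw [cub_comm]
    exact a2 B A (by linear_combination -h)

theorem block_seven : blockOK 7 1 3 52 32 70 36 1 70 4 16 = true := by decide +kernel

theorem res_of_rel2 (hn : Odd n) (k : ZMod n)
    (h : k = 0 ∨ 3 * k = 0 ∨ k = 1 ∨ k + 1 = 0 ∨ 2 * k = 1 ∨ 2 * k + 1 = 0 ∨ (7 * k = 0 ∧ n ≠ 7)) :
    Res n (cub n k (3 * k)) := by
  obtain ⟨m, hm⟩ := hn
  have hm' : (2 * m + 1 : ZMod n) = 0 := by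
    have := ZMod.natCast_self n
    rw [hm] at this
    rw [hm]
    exact_mod_cast this
  have o2 : om n 2 = 4 := by simpa using (om_natCast n 2).trans (by norm_num)
  have o3 : om n 3 = 8 := by simpa using (om_natCast n 3).trans (by norm_num)
  rcases h with h | h | h | h | h | h | ⟨h, h7⟩
  · rw [h]
    exact res_zero _
  · rw [h, cub_comm]
    exact res_zero _
  · refine Or.inr (Or.inr ⟨0, 11, by simp [exps], ?_⟩)
    rw [h, mul_one, cub, om_one, o3, om_zero]
    norm_num
  · refine Or.inr (Or.inr ⟨3 * k, 13, by simp [exps], ?_⟩)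
    have e1 : om n k = om n (3 * k) * 4 := by
      rw [← o2, ← om_add]
      congr 1
      linear_combination -2 * h
    have e2 : 1 = om n (3 * k) * 8 := by
      rw [← o3, ← om_add, ← om_zero n]
      congr 1
      linear_combination -3 * h
    unfold cub
    push_cast
    linear_combination e1 + e2
  · refine Or.inr (Or.inr ⟨k, 2 ^ ((n - 1) / 2) + 3, by simp [exps], ?_⟩)
    have e1 : om n (3 * k) = om n k * 2 := by
      rw [← om_one, ← om_add]
      congr 1
      linear_combination h
    have e2 : 1 = om n k * 2 ^ m := by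
      rw [← om_natCast, ← om_add, ← om_zero n]
      congr 1
      linear_combination -k * hm' + m * h
    rw [show (n - 1) / 2 = m by omega]
    unfold cub
    push_cast
    linear_combination e1 + e2
  · refine Or.inr (Or.inr ⟨3 * k, 2 ^ ((n + 3) / 2) + 3, by simp [exps], ?_⟩)
    have e1 : om n k = om n (3 * k) * 2 := by
      rw [← om_one, ← om_add]
      congr 1
      linear_combination -h
    have e2 : 1 = om n (3 * k) * 2 ^ (m + 2) := by
      rw [← om_natCast, ← om_add, ← om_zero n]
      congr 1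
      push_cast
      linear_combination k * hm' - (m + 2) * h
    rw [show (n + 3) / 2 = m + 2 by omega]
    unfold cub
    push_cast
    linear_combination e1 + e2
  · by_cases hk : k = 0
    · rw [hk]
      exact res_zero _
    have d1 : n ∣ 7 * k.val := by
      rw [← ZMod.natCast_eq_zero_iff]
      push_cast
      rw [ZMod.natCast_zmod_val]
      exact h
    have d2 : ¬ n ∣ k.val := fun hd =>
      hk (by rw [← ZMod.natCast_zmod_val k]; exact (ZMod.natCast_eq_zero_iff _ _).mpr hd)
    have d3 : 7 ∣ n := by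
      by_contra hc
      exact d2 (((Nat.Prime.coprime_iff_not_dvd (by norm_num)).mpr hc).symm.dvd_of_dvd_mul_left d1)
    obtain ⟨g, hg⟩ := d3
    obtain ⟨A, hA⟩ : g ∣ k.val := Nat.dvd_of_mul_dvd_mul_left (by norm_num : 0 < 7) (hg ▸ d1)
    have d4 : (A : ZMod 7) ≠ 0 := fun hz => by
      obtain ⟨c, hc⟩ := (ZMod.natCast_eq_zero_iff _ _).mp hz
      exact d2 ⟨c, by rw [hA, hc]; nth_rewrite 1 [hg]; ring⟩
    have : Fact (Nat.Prime 7) := ⟨by norm_num⟩
    have w := wit_block (n := n) (m := 7) (g := g) hg (by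
        rw [Nat.odd_iff]; omega) (by omega) A (3 * A) 1 3 (A : ZMod 7)⁻¹
      (by rw [inv_mul_cancel₀ d4, Nat.cast_one])
      (by push_cast; rw [mul_left_comm, inv_mul_cancel₀ d4, mul_one]) (by norm_num) (by norm_num)
      block_seven
    rw [show g * (3 * A) = 3 * (g * A) by ring, ← hA] at w
    push_cast at w
    rw [ZMod.natCast_zmod_val] at w
    exact Or.inl w

end Pool.Agent.Lib.MP_a01f70_lc
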