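import Mathlib

/-!
Walsh transforms of power maps on a finite field of characteristic two: consequences of the almost
bent property (a divisibility criterion of McEliece type and the APN property).
-/

set_option linter.unusedSectionVars false

namespace Pool.Agent.Lib.MP_a01f70_lc
open Finset

variable {F : Type*} [Field F] [Fintype F] [Algebra (ZMod 2) F]

/-- the canonical additive character -/
noncomputable def psi (y : F) : ℤ := (-1) ^ (Algebra.trace (ZMod 2) F y).val

/-- the Walsh transform of `x ^ d` -/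
noncomputable def walsh (d : ℕ) (a b : F) : ℤ := ∑ x : F, psi (a * x ^ d + b * x)

/-- almost bent power map -/
def ABF (F : Type*) [Field F] [Fintype F] [Algebra (ZMod 2) F] (n d : ℕ) : Prop :=
  ∀ a b : F, a ≠ 0 → walsh d a b = 0 ∨ walsh d a b = 2 ^ ((n + 1) / 2) ∨
    walsh d a b = -(2 ^ ((n + 1) / 2))

lemma charP_two (F : Type*) [Field F] [Algebra (ZMod 2) F] : CharP F 2 :=
  charP_of_injective_algebraMap (algebraMap (ZMod 2) F).injective 2

lemma add_self_F (x : F) : x + x = 0 := by
  have := charP_two F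
  exact CharTwo.add_self_eq_zero x

lemma psi_zero : psi (0 : F) = 1 := by simp [psi]

lemma psi_add (y z : F) : psi (y + z) = psi y * psi z := by
  unfold psi
  rw [map_add]
  generalize Algebra.trace (ZMod 2) F y = s
  generalize Algebra.trace (ZMod 2) F z = t
  revert s t
  decide

lemma one_sub_psi (y : F) : 1 - psi y = 2 * ((Algebra.trace (ZMod 2) F y).val : ℤ) := by
  unfold psi
  generalize Algebra.trace (ZMod 2) F y = s
  revert s
  decide

open Classical in
lemma sum_psi_mul (b : F) : ∑ x : F, psi (x * b) = if b = 0 then (Fintype.card F : ℤ) else 0 := by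
  split_ifs with hb
  · simp [hb, psi_zero]
  · obtain ⟨z, hz⟩ := Algebra.trace_surjective (ZMod 2) F 1
    have h1 : psi z = -1 := by
      unfold psi
      rw [hz]
      decide
    have h2 : ∑ x : F, psi (x * b) = ∑ x : F, psi ((x + z / b) * b) :=
      (Equiv.sum_comp (Equiv.addRight (z / b)) fun x => psi (x * b)).symm
    have h3 : ∀ x : F, psi ((x + z / b) * b) = -psi (x * b) := fun x => by
      rw [add_mul, div_mul_cancel₀ _ hb, psi_add, h1]
      ring
    simp only [h3, Finset.sum_neg_distrib] at h2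
    linarith

lemma dvd_walsh {n d : ℕ} (hn : 1 ≤ n) (hc : Fintype.card F = 2 ^ n) (h : ABF F n d) (a b : F) :
    (2 : ℤ) ^ ((n + 1) / 2) ∣ walsh d a b := by
  by_cases ha : a = 0
  · have : walsh d a b = ∑ x : F, psi (x * b) := by
      simp [walsh, ha, mul_comm]
    rw [this, sum_psi_mul]
    split_ifs
    · rw [hc]
      push_cast
      exact pow_dvd_pow _ (by omega)
    · exact dvd_zero _
  · rcases h a b ha with h | h | h <;> rw [h]
    · exact dvd_zero _
    · exact (dvd_neg).mpr dvd_rfl

lemma dvd_sum_prod {n d : ℕ} (hn : 1 ≤ n) (hc : Fintype.card F = 2 ^ n) (h : ABF F n d)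
    {ι : Type*} (s : Finset ι) (α β : ι → F) (a b : F) :
    (2 : ℤ) ^ ((n + 1) / 2) ∣
      ∑ x : F, psi (a * x ^ d + b * x) * ∏ t ∈ s, (1 - psi (α t * x ^ d + β t * x)) := by
  classical
  induction s using Finset.induction_on generalizing a b with
  | empty => simpa [walsh] using dvd_walsh hn hc h a b
  | insert t s ht ih =>
    have e : ∀ x : F, psi (a * x ^ d + b * x) *
        ∏ t ∈ insert t s, (1 - psi (α t * x ^ d + β t * x))
        = psi (a * x ^ d + b * x) * ∏ t ∈ s, (1 - psi (α t * x ^ d + β t * x))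
          - psi ((a + α t) * x ^ d + (b + β t) * x) *
            ∏ t ∈ s, (1 - psi (α t * x ^ d + β t * x)) := by
      intro x
      have : (a + α t) * x ^ d + (b + β t) * x
          = (a * x ^ d + b * x) + (α t * x ^ d + β t * x) := by ring
      rw [Finset.prod_insert ht, this, psi_add (a * x ^ d + b * x)]
      ring
    simp only [e, Finset.sum_sub_distrib]
    exact dvd_sub (ih _ _) (ih _ _)

lemma sum_prod_trace {n d : ℕ} (hn : Odd n) (hc : Fintype.card F = 2 ^ n) (h : ABF F n d)
    {ι : Type*} [Fintype ι] (hι : 2 * Fintype.card ι ≤ n) (α β : ι → F) :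
    ∑ x : F, ∏ t, algebraMap (ZMod 2) F (Algebra.trace (ZMod 2) F (α t * x ^ d + β t * x)) = 0 := by
  obtain ⟨m, rfl⟩ := hn
  have h1 := dvd_sum_prod (by omega) hc h univ α β 0 0
  simp only [zero_mul, add_zero, psi_zero, one_mul, one_sub_psi, Finset.prod_mul_distrib,
    Finset.prod_const, Finset.card_univ, ← Finset.mul_sum] at h1
  have h2 : (2 : ℤ) ^ Fintype.card ι * 2 ∣ 2 ^ ((2 * m + 1 + 1) / 2) := by
    rw [← pow_succ]
    exact pow_dvd_pow _ (by omega)
  have h3 := (mul_dvd_mul_iff_left (by positivity)).mp (h2.trans h1)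
  have h4 : ((∑ x : F, ∏ t, ((Algebra.trace (ZMod 2) F (α t * x ^ d + β t * x)).val : ℤ) : ℤ)
      : ZMod 2) = 0 := (ZMod.intCast_zmod_eq_zero_iff_dvd _ 2).mpr h3
  simp only [Int.cast_sum, Int.cast_prod, Int.cast_natCast, ZMod.natCast_zmod_val] at h4
  have h5 := congrArg (algebraMap (ZMod 2) F) h4
  simpa only [map_sum, map_prod, map_zero] using h5

lemma sum_prod_frob {n d : ℕ} (hn : Odd n) (hc : Fintype.card F = 2 ^ n) (h : ABF F n d)
    {ι : Type*} [Fintype ι] (hι : 2 * Fintype.card ι ≤ n) (u v : ι → F) (s : ι → ℕ) :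
    ∑ x : F, ∏ t, (u t * x ^ d + v t * x) ^ 2 ^ s t = 0 := by
  classical
  have := charP_two F
  let b := Module.finBasis (ZMod 2) F
  have e1 : ∀ (y : F) (k : ℕ), y ^ 2 ^ k = ∑ i, algebraMap (ZMod 2) F
      (Algebra.trace (ZMod 2) F (b i * y)) * (b.traceDual i) ^ 2 ^ k := by
    intro y k
    conv_lhs => rw [← b.traceDual.sum_repr y]
    rw [sum_pow_char_pow]
    refine Finset.sum_congr rfl fun i _ => ?_
    rw [Algebra.smul_def, mul_pow, ← map_pow, ZMod.pow_card_pow, Module.Basis.traceDual_repr_apply,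
      Algebra.traceForm_apply, mul_comm y]
  have e2 : ∀ x : F, ∏ t, (u t * x ^ d + v t * x) ^ 2 ^ s t = ∏ t, ∑ i, algebraMap (ZMod 2) F
      (Algebra.trace (ZMod 2) F (b i * (u t * x ^ d + v t * x))) * (b.traceDual i) ^ 2 ^ s t :=
    fun x => Finset.prod_congr rfl fun t _ => e1 _ _
  simp only [e2, Fintype.prod_sum]
  rw [Finset.sum_comm]
  refine Finset.sum_eq_zero fun p _ => ?_
  simp only [Finset.prod_mul_distrib, ← Finset.sum_mul]
  have := sum_prod_trace hn hc h hι (fun t => b (p t) * u t) (fun t => b (p t) * v t)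
  simp only [mul_add, ← mul_assoc]
  rw [this, zero_mul]

/-- The divisibility criterion: a relation `d * j + r ≡ 0` modulo `2 ^ n - 1` needs at least
`(n + 1) / 2` binary digits in total. -/
theorem count_ge {n d : ℕ} (hn : Odd n) (hc : Fintype.card F = 2 ^ n) (h : ABF F n d) (hd : 0 < d)
    {κ : Type*} [Fintype κ] (s : κ → ℕ) (J R : κ → ℕ)
    (hE : (2 ^ n - 1) ∣ d * ∑ k, J k * 2 ^ s k + ∑ k, R k * 2 ^ s k)
    (hpos : 0 < ∑ k, J k + ∑ k, R k) : n < 2 * (∑ k, J k + ∑ k, R k) := by
  classical
  by_contra hle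
  push Not at hle
  have h1 := sum_prod_frob hn hc h (ι := (Σ k, Fin (J k)) ⊕ (Σ k, Fin (R k)))
    (by simpa using hle) (Sum.elim (fun _ => 1) fun _ => 0) (Sum.elim (fun _ => 0) fun _ => 1)
    (Sum.elim (fun p => s p.1) fun p => s p.1)
  simp only [Fintype.prod_sum_type, Sum.elim_inl, Sum.elim_inr, one_mul, zero_mul, add_zero,
    zero_add, ← pow_mul, Finset.prod_pow_eq_pow_sum, ← pow_add, Fintype.sum_sigma,
    Finset.sum_const, Finset.card_univ, Fintype.card_fin, smul_eq_mul] at h1
  have e : ∑ k, J k * (d * 2 ^ s k) + ∑ k, R k * 2 ^ s k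
      = d * ∑ k, J k * 2 ^ s k + ∑ k, R k * 2 ^ s k := by
    rw [Finset.mul_sum]
    congr 1
    exact Finset.sum_congr rfl fun k _ => by ring
  have hEpos : 0 < d * ∑ k, J k * 2 ^ s k + ∑ k, R k * 2 ^ s k := by
    have a1 : ∑ k, J k ≤ ∑ k, J k * 2 ^ s k :=
      Finset.sum_le_sum fun k _ => Nat.le_mul_of_pos_right _ (by positivity)
    have a2 : ∑ k, R k ≤ ∑ k, R k * 2 ^ s k :=
      Finset.sum_le_sum fun k _ => Nat.le_mul_of_pos_right _ (by positivity)
    have a3 : ∑ k, J k * 2 ^ s k ≤ d * ∑ k, J k * 2 ^ s k := Nat.le_mul_of_pos_left _ hd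
    omega
  rw [e] at h1
  generalize d * ∑ k, J k * 2 ^ s k + ∑ k, R k * 2 ^ s k = E at hE hEpos h1
  obtain ⟨c, rfl⟩ := hE
  have h2 : ∀ x : F, x ^ ((2 ^ n - 1) * c) = 1 - if x = 0 then 1 else 0 := by
    intro x
    split_ifs with hx
    · rw [hx, zero_pow hEpos.ne', sub_self]
    · rw [pow_mul, ← hc, FiniteField.pow_card_sub_one_eq_one x hx, one_pow, sub_zero]
  simp only [h2, Finset.sum_sub_distrib, Finset.sum_const, Finset.card_univ, nsmul_eq_mul,
    mul_one, Finset.sum_ite_eq', Finset.mem_univ, if_true, FiniteField.cast_card_eq_zero] at h1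
  simp at h1

lemma sum_comm_two (f : F → F → F → ℤ) :
    ∑ a : F, ∑ b : F, ∑ x : F, f a b x = ∑ x : F, ∑ a : F, ∑ b : F, f a b x := by
  rw [Finset.sum_comm (s := univ) (t := univ) (f := fun x a => ∑ b : F, f a b x)]
  exact Finset.sum_congr rfl fun a _ => Finset.sum_comm

/-- an almost bent power map is APN -/
theorem apn_of_ab {n d : ℕ} (hn : Odd n) (hc : Fintype.card F = 2 ^ n) (h : ABF F n d) (x₀ y₀ : F)
    (h0 : x₀ ^ d + y₀ ^ d + (x₀ + y₀ + 1) ^ d = 1) (hx : x₀ ≠ 1) (hy : y₀ ≠ 1) : x₀ = y₀ := by
  classical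
  by_contra hxy
  obtain ⟨m, rfl⟩ := hn
  set q : ℤ := (Fintype.card F : ℤ) with hq
  have hq2 : ((2 : ℤ) ^ ((2 * m + 1 + 1) / 2)) ^ 2 = 2 * q := by
    rw [hq, hc, ← pow_mul, show (2 * m + 1 + 1) / 2 * 2 = (2 * m + 1) + 1 by omega]
    push_cast
    ring
  have hqpos : 0 < q := by rw [hq]; exact_mod_cast Fintype.card_pos
  -- expansion of the third moment
  have e1 : ∑ a : F, ∑ b : F, walsh d a b ^ 3 * psi (a + b)
      = q ^ 2 * ∑ x : F, ∑ y : F,
        if x ^ d + y ^ d + (x + y + 1) ^ d + 1 = 0 then (1 : ℤ) else 0 := by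
    have a1 : ∀ a b : F, walsh d a b ^ 3 * psi (a + b) = ∑ x : F, ∑ y : F, ∑ z : F,
        psi (a * (x ^ d + y ^ d + z ^ d + 1)) * psi (b * (x + y + z + 1)) := by
      intro a b
      rw [pow_succ, pow_two]
      unfold walsh
      rw [Finset.sum_mul_sum, Finset.sum_mul, Finset.sum_mul]
      refine Finset.sum_congr rfl fun x _ => ?_
      rw [Finset.sum_mul, Finset.sum_mul]
      refine Finset.sum_congr rfl fun y _ => ?_
      rw [Finset.mul_sum, Finset.sum_mul]
      refine Finset.sum_congr rfl fun z _ => ?_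
      rw [← psi_add, ← psi_add, ← psi_add, ← psi_add]
      congr 1
      ring
    simp only [a1]
    have a2 : ∑ a : F, ∑ b : F, ∑ x : F, ∑ y : F, ∑ z : F,
        psi (a * (x ^ d + y ^ d + z ^ d + 1)) * psi (b * (x + y + z + 1))
        = ∑ x : F, ∑ y : F, ∑ z : F, (∑ a : F, psi (a * (x ^ d + y ^ d + z ^ d + 1))) *
          ∑ b : F, psi (b * (x + y + z + 1)) := by
      simp only [Finset.sum_mul_sum]
      rw [sum_comm_two]
      refine Finset.sum_congr rfl fun x _ => ?_
      rw [sum_comm_two]
      refine Finset.sum_congr rfl fun y _ => ?_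
      rw [sum_comm_two]
    rw [a2, Finset.mul_sum]
    refine Finset.sum_congr rfl fun x _ => ?_
    rw [Finset.mul_sum]
    refine Finset.sum_congr rfl fun y _ => ?_
    simp only [sum_psi_mul]
    rw [Finset.sum_eq_single (x + y + 1)]
    · have : x + y + (x + y + 1) + 1 = 0 := by
        linear_combination add_self_F x + add_self_F y + add_self_F (1 : F)
      rw [if_pos this]
      split_ifs <;> ring
    · intro z _ hz
      have : x + y + z + 1 ≠ 0 := fun h => hz (by linear_combination h - add_self_F (x + y + 1))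
      rw [if_neg this, mul_zero]
    · simp
  -- evaluation with the almost bent property
  have e2 : ∀ a : F, ∑ b : F, walsh d a b ^ 3 * psi (a + b)
      = 2 * q ^ 2 + if a = 0 then q ^ 3 - 2 * q ^ 2 else 0 := by
    intro a
    split_ifs with ha
    · have a1 : ∀ b : F, walsh d a b = if b = 0 then q else 0 := by
        intro b
        rw [← sum_psi_mul]
        simp [walsh, ha, mul_comm]
      rw [Finset.sum_eq_single 0]
      · rw [a1, ha]
        simp [psi_zero]
      · intro b _ hb
        rw [a1, if_neg hb]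
        simp
      · simp
    · have a1 : ∀ b : F, walsh d a b ^ 3 = 2 * q * walsh d a b := by
        intro b
        rw [← hq2]
        rcases h a b ha with h | h | h <;> rw [h] <;> ring
      have a2 : ∑ b : F, walsh d a b * psi (a + b) = q := by
        unfold walsh
        simp only [Finset.sum_mul]
        rw [Finset.sum_comm]
        have a3 : ∀ x : F, ∑ b : F, psi (a * x ^ d + b * x) * psi (a + b)
            = psi (a * x ^ d + a) * ∑ b : F, psi (b * (x + 1)) := by
          intro x
          rw [Finset.mul_sum]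
          refine Finset.sum_congr rfl fun b _ => ?_
          rw [← psi_add, ← psi_add]
          congr 1
          ring
        simp only [a3, sum_psi_mul]
        rw [Finset.sum_eq_single 1]
        · rw [if_pos (add_self_F 1), one_pow, mul_one, add_self_F, psi_zero, one_mul]
        · intro x _ hx1
          have : x + 1 ≠ 0 := fun h => hx1 (by linear_combination h - add_self_F (1 : F))
          rw [if_neg this, mul_zero]
        · simp
      simp only [a1, mul_assoc (2 * q), ← Finset.mul_sum, a2]
      ring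
  simp only [e2, Finset.sum_add_distrib, Finset.sum_const, Finset.card_univ, nsmul_eq_mul,
    Finset.sum_ite_eq', Finset.mem_univ, if_true] at e1
  -- lower bound for the number of solutions
  have e3 : ∀ x : F, 2 + (if x = 1 then q - 2 else 0) + (if x = x₀ then 1 else 0)
      ≤ ∑ y : F, if x ^ d + y ^ d + (x + y + 1) ^ d + 1 = 0 then (1 : ℤ) else 0 := by
    intro x
    have t1 : x ^ d + 1 ^ d + (x + 1 + 1) ^ d + 1 = 0 := by
      rw [add_assoc x, add_self_F, add_zero, one_pow]
      linear_combination add_self_F (x ^ d) + add_self_F (1 : F)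
    have t2 : x ^ d + x ^ d + (x + x + 1) ^ d + 1 = 0 := by
      rw [add_self_F, add_self_F, zero_add, zero_add, one_pow, add_self_F]
    have sub : ∀ S : Finset F, (∀ y ∈ S, x ^ d + y ^ d + (x + y + 1) ^ d + 1 = 0) →
        (S.card : ℤ) ≤ ∑ y : F, if x ^ d + y ^ d + (x + y + 1) ^ d + 1 = 0 then (1 : ℤ) else 0 := by
      intro S hS
      rw [Finset.sum_boole]
      exact_mod_cast Finset.card_le_card fun y hy => Finset.mem_filter.mpr ⟨mem_univ _, hS y hy⟩
    by_cases h1 : x = 1
    · have := sub univ fun y _ => by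
        rw [h1, show 1 + y + 1 = y by linear_combination add_self_F (1 : F), one_pow]
        linear_combination add_self_F (y ^ d) + add_self_F (1 : F)
      rw [if_pos h1, if_neg (fun h => hx (h.symm.trans h1))]
      rw [Finset.card_univ] at this
      linarith
    · by_cases h2 : x = x₀
      · have := sub {1, x, y₀} (by
          intro y hy'
          simp only [Finset.mem_insert, Finset.mem_singleton] at hy'
          rcases hy' with rfl | rfl | rfl
          · exact t1
          · exact t2
          · rw [h2, h0, add_self_F])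
        rw [Finset.card_eq_three.mpr ⟨1, x, y₀, Ne.symm h1, Ne.symm hy, h2 ▸ hxy, rfl⟩] at this
        rw [if_neg h1, if_pos h2]
        push_cast at this
        linarith
      · have := sub {1, x} (by
          intro y hy'
          simp only [Finset.mem_insert, Finset.mem_singleton] at hy'
          rcases hy' with rfl | rfl
          · exact t1
          · exact t2)
        rw [Finset.card_pair (Ne.symm h1)] at this
        rw [if_neg h1, if_neg h2]
        push_cast at this
        linarith
  have e4 := Finset.sum_le_sum fun x (_ : x ∈ univ) => e3 x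
  simp only [Finset.sum_add_distrib, Finset.sum_const, Finset.card_univ, nsmul_eq_mul,
    Finset.sum_ite_eq', Finset.mem_univ, if_true] at e4
  rw [← hq] at e1 e4
  have e5 := mul_le_mul_of_nonneg_left e4 (sq_nonneg q)
  nlinarith [pow_pos hqpos 2]

end Pool.Agent.Lib.MP_a01f70_lc
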